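import Pool.Agent.Helper112.Kb.Defs

open Finset

namespace Pool.Agent.Helper112.KB.Kcr

/- TARGET -/
theorem cross (M J : ℕ) (hM : J + 12 ≤ M) (a b : Fin (M + 5) → ℝ)
    (ha1 : 28 / 100 ≤ a ⟨M, by omega⟩) (ha2 : a ⟨M, by omega⟩ ≤ 37 / 100)
    (ha3 : a ⟨M + 1, by omega⟩ ≤ 136 / 1000)
    (hb1 : ∀ (k : ℕ) (hk : k < M), J ≤ k → 1 / 2 < b ⟨k, by omega⟩)
    (hb2 : ∀ (k : ℕ) (hk : k < M), k < J → 99 / 100 * b ⟨k, by omega⟩ ≤ b ⟨k + 1, by omega⟩)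
    (hb3 : ∀ (k : ℕ) (hk : k < M + 5), M < k → b ⟨k, hk⟩ ≤ 136 / 1000)
    (j : Fin (M + 5)) (hj : j ≠ 0) : ∃ i, 1 / 100 ≤ |a i - b (i - j)| := by
  have hj0 : j.val ≠ 0 := by
    intro h0
    apply hj
    apply Fin.ext
    simpa using h0
  have hjlt := j.isLt
  rcases le_or_gt j.val M with hjM | hjM
  · have hidx : (⟨M, by omega⟩ : Fin (M + 5)) - j = ⟨M - j.val, by omega⟩ := by
      apply Fin.ext
      rw [Fin.sub_val_of_le (by simpa [Fin.le_def] using hjM)]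
    have hidx1 : (⟨M + 1, by omega⟩ : Fin (M + 5)) - j = ⟨M - j.val + 1, by omega⟩ := by
      apply Fin.ext
      rw [Fin.sub_val_of_le (by rw [Fin.le_def]; show j.val ≤ M + 1; omega)]
      show M + 1 - j.val = M - j.val + 1
      omega
    rcases le_or_gt J (M - j.val) with hk | hk
    · refine ⟨⟨M, by omega⟩, ?_⟩
      rw [hidx]
      have := hb1 (M - j.val) (by omega) hk
      rw [abs_sub_comm]
      refine le_trans ?_ (le_abs_self _)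
      linarith
    · by_contra hcon
      push Not at hcon
      have c1 := hcon ⟨M, by omega⟩
      have c2 := hcon ⟨M + 1, by omega⟩
      rw [hidx] at c1
      rw [hidx1] at c2
      have h2 := hb2 (M - j.val) (by omega) hk
      rw [abs_lt] at c1 c2
      linarith [c1.1, c1.2, c2.1, c2.2]
  · refine ⟨⟨M, by omega⟩, ?_⟩
    have hidx : (⟨M, by omega⟩ : Fin (M + 5)) - j = ⟨2 * M + 5 - j.val, by omega⟩ := by
      apply Fin.ext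
      rw [Fin.val_sub]
      show (M + 5 - j.val + M) % (M + 5) = 2 * M + 5 - j.val
      rw [Nat.mod_eq_of_lt (by omega)]
      omega
    rw [hidx]
    have := hb3 (2 * M + 5 - j.val) (by omega) (by omega)
    refine le_trans ?_ (le_abs_self _)
    linarith

theorem aux_rad (Q : Par) (y : ℝ) (i : ℕ) :
    Q.rad y ^ (2 ^ i) = Real.exp (-(y * (2 : ℝ) ^ i / 2 ^ Q.M)) := by
  unfold Par.rad
  rw [← Real.exp_nat_mul]
  congr 1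
  push_cast
  ring

theorem aux_norm (Q : Par) (ω : ℂ) (h : ‖ω‖ = 1) (y : ℝ) (k i : ℕ) :
    ‖(Q.p k : ℂ) * (ω * (Q.rad y : ℂ)) ^ (2 ^ i)‖
      = Q.p k * Real.exp (-(y * (2 : ℝ) ^ i / 2 ^ Q.M)) := by
  have hr : 0 ≤ Q.rad y := (Real.exp_pos _).le
  rw [norm_mul, norm_pow, norm_mul, h, one_mul, Complex.norm_real, Complex.norm_real,
    Real.norm_of_nonneg (Q.pnn k), Real.norm_of_nonneg hr, aux_rad]

/- TARGET -/
theorem norm_C0 (Q : Par) (ω : ℂ) (h : ‖ω‖ = 1) (i : Fin (Q.M + 5)) :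
    ‖Q.C0 ω i‖ = if (i : ℕ) = 0 then 0 else Q.p (i : ℕ) * Real.exp (-((2 : ℝ) ^ (i : ℕ) / 2 ^ Q.M)) := by
  unfold Par.C0 Par.F0
  split_ifs with h0
  · simp
  · rw [aux_norm Q ω h, one_mul]

/- TARGET -/
theorem norm_C1 (Q : Par) (ω : ℂ) (h : ‖ω‖ = 1) (i : Fin (Q.M + 5)) :
    ‖Q.C1 ω i‖ = Q.p ((i : ℕ) + 1) * Real.exp (-(5 / 4 * (2 : ℝ) ^ (i : ℕ) / 2 ^ Q.M)) := by
  unfold Par.C1 Par.FB
  exact aux_norm Q ω h _ _ _

/- TARGET -/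
theorem norm_Z (Q : Par) (i : Fin (Q.M + 5)) :
    ‖Q.FA (Q.rad (9 / 8) : ℂ) i‖ = Q.p (i : ℕ) * Real.exp (-(9 / 8 * (2 : ℝ) ^ (i : ℕ) / 2 ^ Q.M)) := by
  unfold Par.FA
  have := aux_norm Q 1 (by simp) (9 / 8) (i : ℕ) (i : ℕ)
  rwa [one_mul] at this

end Pool.Agent.Helper112.KB.Kcr

namespace Pool.Agent.Helper112.KB

theorem cross (M J : ℕ) (hM : J + 12 ≤ M) (a b : Fin (M + 5) → ℝ)
    (ha1 : 28 / 100 ≤ a ⟨M, by omega⟩) (ha2 : a ⟨M, by omega⟩ ≤ 37 / 100)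
    (ha3 : a ⟨M + 1, by omega⟩ ≤ 136 / 1000)
    (hb1 : ∀ (k : ℕ) (hk : k < M), J ≤ k → 1 / 2 < b ⟨k, by omega⟩)
    (hb2 : ∀ (k : ℕ) (hk : k < M), k < J → 99 / 100 * b ⟨k, by omega⟩ ≤ b ⟨k + 1, by omega⟩)
    (hb3 : ∀ (k : ℕ) (hk : k < M + 5), M < k → b ⟨k, hk⟩ ≤ 136 / 1000)
    (j : Fin (M + 5)) (hj : j ≠ 0) : ∃ i, 1 / 100 ≤ |a i - b (i - j)| := by
  first
    | exact Kcr.cross
    | (apply Kcr.cross <;> assumption)

theorem norm_C0 (Q : Par) (ω : ℂ) (h : ‖ω‖ = 1) (i : Fin (Q.M + 5)) :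
    ‖Q.C0 ω i‖ = if (i : ℕ) = 0 then 0 else Q.p (i : ℕ) * Real.exp (-((2 : ℝ) ^ (i : ℕ) / 2 ^ Q.M)) := by
  first
    | exact Kcr.norm_C0
    | (apply Kcr.norm_C0 <;> assumption)

theorem norm_C1 (Q : Par) (ω : ℂ) (h : ‖ω‖ = 1) (i : Fin (Q.M + 5)) :
    ‖Q.C1 ω i‖ = Q.p ((i : ℕ) + 1) * Real.exp (-(5 / 4 * (2 : ℝ) ^ (i : ℕ) / 2 ^ Q.M)) := by
  first
    | exact Kcr.norm_C1
    | (apply Kcr.norm_C1 <;> assumption)

theorem norm_Z (Q : Par) (i : Fin (Q.M + 5)) :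
    ‖Q.FA (Q.rad (9 / 8) : ℂ) i‖ = Q.p (i : ℕ) * Real.exp (-(9 / 8 * (2 : ℝ) ^ (i : ℕ) / 2 ^ Q.M)) := by
  first
    | exact Kcr.norm_Z
    | (apply Kcr.norm_Z <;> assumption)

end Pool.Agent.Helper112.KB
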