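import Pool.Agent.Helper112.Kb.Defs

open Finset

namespace Pool.Agent.Helper112.KB.Knr

theorem nrm_eq {n : ℕ} (x : Fin n → ℂ) : nrm x = ‖(WithLp.toLp 2 x : EuclideanSpace ℂ (Fin n))‖ := by
  rw [EuclideanSpace.norm_eq]; rfl

theorem nrm_nonneg' {n : ℕ} (x : Fin n → ℂ) : 0 ≤ nrm x := Real.sqrt_nonneg _

theorem nrm_sq' {n : ℕ} (x : Fin n → ℂ) : nrm x ^ 2 = ∑ i, ‖x i‖ ^ 2 :=
  Real.sq_sqrt (Finset.sum_nonneg (fun i _ => by positivity))

theorem nrm_nonneg {n : ℕ} (x : Fin n → ℂ) : 0 ≤ nrm x := by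
  exact nrm_nonneg' x

theorem nrm_sq {n : ℕ} (x : Fin n → ℂ) : nrm x ^ 2 = ∑ i, ‖x i‖ ^ 2 := by
  exact nrm_sq' x

theorem nrm_add {n : ℕ} (x y : Fin n → ℂ) : nrm (x + y) ≤ nrm x + nrm y := by
  simp only [nrm_eq, WithLp.toLp_add]
  exact norm_add_le _ _

theorem nrm_sub {n : ℕ} (x y : Fin n → ℂ) : nrm (x - y) ≤ nrm x + nrm y := by
  simp only [nrm_eq, WithLp.toLp_sub]
  exact norm_sub_le _ _

theorem nrm_sub_comm {n : ℕ} (x y : Fin n → ℂ) : nrm (x - y) = nrm (y - x) := by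
  simp only [nrm_eq, WithLp.toLp_sub]
  exact norm_sub_rev _ _

theorem nrm_smul {n : ℕ} (a : ℂ) (x : Fin n → ℂ) : nrm (fun i => a * x i) = ‖a‖ * nrm x := by
  have : (fun i => a * x i) = a • x := by funext i; simp
  rw [this, nrm_eq, nrm_eq, WithLp.toLp_smul]
  exact norm_smul _ _

theorem norm_le_nrm {n : ℕ} (x : Fin n → ℂ) (i : Fin n) : ‖x i‖ ≤ nrm x := by
  have h : ‖x i‖ ^ 2 ≤ nrm x ^ 2 := by
    rw [nrm_sq']
    exact Finset.single_le_sum (f := fun i => ‖x i‖ ^ 2) (fun i _ => by positivity) (Finset.mem_univ i)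
  exact (pow_le_pow_iff_left₀ (norm_nonneg _) (nrm_nonneg' _) two_ne_zero).mp h

theorem nrm_le_iff {n : ℕ} (x : Fin n → ℂ) (r : ℝ) (hr : 0 ≤ r) :
    nrm x ≤ r ↔ ∑ i, ‖x i‖ ^ 2 ≤ r ^ 2 := by
  rw [← nrm_sq']
  exact (pow_le_pow_iff_left₀ (nrm_nonneg' _) hr two_ne_zero).symm

theorem nrm_rot {n : ℕ} [NeZero n] (j : Fin n) (x : Fin n → ℂ) : nrm (rot j x) = nrm x := by
  simp only [nrm, rot]
  congr 1
  exact Fintype.sum_equiv (Equiv.subRight j) (fun i => ‖x (i - j)‖ ^ 2) (fun i => ‖x i‖ ^ 2) (fun i => rfl)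

theorem rot_rot {n : ℕ} [NeZero n] (j k : Fin n) (x : Fin n → ℂ) :
    rot j (rot k x) = rot (j + k) x := by
  funext i
  simp only [rot]
  rw [sub_sub]

end Pool.Agent.Helper112.KB.Knr

namespace Pool.Agent.Helper112.KB

theorem nrm_nonneg {n : ℕ} (x : Fin n → ℂ) : 0 ≤ nrm x := by
  first
    | exact Knr.nrm_nonneg
    | (apply Knr.nrm_nonneg <;> assumption)

theorem nrm_sq {n : ℕ} (x : Fin n → ℂ) : nrm x ^ 2 = ∑ i, ‖x i‖ ^ 2 := by
  first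
    | exact Knr.nrm_sq
    | (apply Knr.nrm_sq <;> assumption)

theorem nrm_add {n : ℕ} (x y : Fin n → ℂ) : nrm (x + y) ≤ nrm x + nrm y := by
  first
    | exact Knr.nrm_add
    | (apply Knr.nrm_add <;> assumption)

theorem nrm_sub {n : ℕ} (x y : Fin n → ℂ) : nrm (x - y) ≤ nrm x + nrm y := by
  first
    | exact Knr.nrm_sub
    | (apply Knr.nrm_sub <;> assumption)

theorem nrm_sub_comm {n : ℕ} (x y : Fin n → ℂ) : nrm (x - y) = nrm (y - x) := by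
  first
    | exact Knr.nrm_sub_comm
    | (apply Knr.nrm_sub_comm <;> assumption)

theorem nrm_smul {n : ℕ} (a : ℂ) (x : Fin n → ℂ) : nrm (fun i => a * x i) = ‖a‖ * nrm x := by
  first
    | exact Knr.nrm_smul
    | (apply Knr.nrm_smul <;> assumption)

theorem norm_le_nrm {n : ℕ} (x : Fin n → ℂ) (i : Fin n) : ‖x i‖ ≤ nrm x := by
  first
    | exact Knr.norm_le_nrm
    | (apply Knr.norm_le_nrm <;> assumption)

theorem nrm_le_iff {n : ℕ} (x : Fin n → ℂ) (r : ℝ) (hr : 0 ≤ r) :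
    nrm x ≤ r ↔ ∑ i, ‖x i‖ ^ 2 ≤ r ^ 2 := by
  first
    | exact Knr.nrm_le_iff
    | (apply Knr.nrm_le_iff <;> assumption)

theorem nrm_rot {n : ℕ} [NeZero n] (j : Fin n) (x : Fin n → ℂ) : nrm (rot j x) = nrm x := by
  first
    | exact Knr.nrm_rot
    | (apply Knr.nrm_rot <;> assumption)

theorem rot_rot {n : ℕ} [NeZero n] (j k : Fin n) (x : Fin n → ℂ) :
    rot j (rot k x) = rot (j + k) x := by
  first
    | exact Knr.rot_rot
    | (apply Knr.rot_rot <;> assumption)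

end Pool.Agent.Helper112.KB
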