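import Pool.Agent.Helper112.Kb.Defs

open Finset

namespace Pool.Agent.Helper112.KB.Kdi

theorem dT0 (Q : Par) (w : ℂ) (h0 : 2 / 3 ≤ ‖1 - Q.E0 w‖) : DifferentiableAt ℂ Q.T0 w := by
  have h : 1 - Q.E0 w ≠ 0 := by
    intro h; rw [h, norm_zero] at h0; norm_num at h0
  have hE : DifferentiableAt ℂ (fun z => 1 - Q.E0 z) w := by
    unfold Par.E0; fun_prop
  exact DifferentiableAt.div (differentiableAt_const 1) hE h

theorem dE1 (Q : Par) (w : ℂ) (hw : w ≠ 0) : DifferentiableAt ℂ Q.E1 w := by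
  have h : w ^ Q.N ≠ 0 := pow_ne_zero _ hw
  exact DifferentiableAt.div (differentiableAt_const _) (by fun_prop) h

theorem dU1 (Q : Par) (w : ℂ) (hw : w ≠ 0) (h1 : 2 / 3 ≤ ‖1 - Q.E1 w‖) : DifferentiableAt ℂ Q.U1 w := by
  have h : 1 - Q.E1 w ≠ 0 := by
    intro h; rw [h, norm_zero] at h1; norm_num at h1
  exact DifferentiableAt.div (differentiableAt_const 1) ((differentiableAt_const 1).sub (dE1 Q w hw)) h

theorem dF0 (Q : Par) (w : ℂ) (i) : DifferentiableAt ℂ (fun z => Q.F0 z i) w := by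
  unfold Par.F0
  by_cases h : (i : ℕ) = 0
  · simp only [h, if_true]; fun_prop
  · simp only [h, if_false]; fun_prop

theorem dDD (Q : Par) (w : ℂ) (i) : DifferentiableAt ℂ (fun z => Q.DD z i) w := by
  unfold Par.DD; fun_prop

theorem dFB (Q : Par) (w : ℂ) (i) : DifferentiableAt ℂ (fun z => Q.FB z i) w := by
  unfold Par.FB; fun_prop

theorem dgA (Q : Par) (w : ℂ) (hw : w ≠ 0) (h0 : 2 / 3 ≤ ‖1 - Q.E0 w‖)
    (h1 : 2 / 3 ≤ ‖1 - Q.E1 w‖) : DifferentiableAt ℂ Q.gA w :=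
  ((dT0 Q w h0).add (dU1 Q w hw h1)).sub_const 1

theorem dUs (Q : Par) (v : ℂ) (hv : v ≠ 0) 
    (h1 : 2 / 3 ≤ ‖1 - Q.E1 (v ^ 2)‖) : DifferentiableAt ℂ (fun z => Q.U1 (z ^ 2)) v :=
  DifferentiableAt.comp (g := Q.U1) (f := fun z => z ^ 2) v (dU1 Q _ (pow_ne_zero _ hv) h1) (by fun_prop)

theorem dgB (Q : Par) (v : ℂ) (hv : v ≠ 0) (h0 : 2 / 3 ≤ ‖1 - Q.E0 v‖)
    (h1 : 2 / 3 ≤ ‖1 - Q.E1 (v ^ 2)‖) : DifferentiableAt ℂ Q.gB v :=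
  ((differentiableAt_const 1).sub (dUs Q v hv h1)).sub (dT0 Q v h0)

theorem diffA (Q : Par) (c : Fin (Q.M + 5) → ℂ) (w : ℂ) (hw : w ≠ 0) (h0 : 2 / 3 ≤ ‖1 - Q.E0 w‖)
    (h1 : 2 / 3 ≤ ‖1 - Q.E1 w‖) :
    (∀ i, DifferentiableAt ℂ (fun z => Q.PsiA c z i) w) ∧ DifferentiableAt ℂ Q.gA w := by
  refine ⟨?_, dgA Q w hw h0 h1⟩
  intro i
  have a1 := dF0 Q w i
  have a2 := dT0 Q w h0
  have a3 := dU1 Q w hw h1
  have a4 := dDD Q w i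
  have a5 := dgA Q w hw h0 h1
  unfold Par.PsiA Par.R0
  fun_prop

theorem diffB (Q : Par) (c : Fin (Q.M + 5) → ℂ) (v : ℂ) (hv : v ≠ 0) (h0 : 2 / 3 ≤ ‖1 - Q.E0 v‖)
    (h1 : 2 / 3 ≤ ‖1 - Q.E1 (v ^ 2)‖) :
    (∀ i, DifferentiableAt ℂ (fun z => Q.PsiB c z i) v) ∧ DifferentiableAt ℂ Q.gB v := by
  refine ⟨?_, dgB Q v hv h0 h1⟩
  intro i
  have a1 : DifferentiableAt ℂ (fun z => Q.FB (z ^ 2) (i - 1)) v :=
    DifferentiableAt.comp (g := fun z => Q.FB z (i - 1)) (f := fun z => z ^ 2) v (dFB Q _ _) (by fun_prop)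
  have a2 := dT0 Q v h0
  have a3 := dUs Q v hv h1
  have a4 : DifferentiableAt ℂ (fun z => Q.DD (z ^ 2) (i - 1)) v :=
    DifferentiableAt.comp (g := fun z => Q.DD z (i - 1)) (f := fun z => z ^ 2) v (dDD Q _ _) (by fun_prop)
  have a5 := dgB Q v hv h0 h1
  unfold Par.PsiB rot Par.R1
  fun_prop

end Pool.Agent.Helper112.KB.Kdi

namespace Pool.Agent.Helper112.KB

theorem diffA (Q : Par) (c : Fin (Q.M + 5) → ℂ) (w : ℂ) (hw : w ≠ 0) (h0 : 2 / 3 ≤ ‖1 - Q.E0 w‖)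
    (h1 : 2 / 3 ≤ ‖1 - Q.E1 w‖) :
    (∀ i, DifferentiableAt ℂ (fun z => Q.PsiA c z i) w) ∧ DifferentiableAt ℂ Q.gA w := by
  first
    | exact Kdi.diffA
    | (apply Kdi.diffA <;> assumption)

theorem diffB (Q : Par) (c : Fin (Q.M + 5) → ℂ) (v : ℂ) (hv : v ≠ 0) (h0 : 2 / 3 ≤ ‖1 - Q.E0 v‖)
    (h1 : 2 / 3 ≤ ‖1 - Q.E1 (v ^ 2)‖) :
    (∀ i, DifferentiableAt ℂ (fun z => Q.PsiB c z i) v) ∧ DifferentiableAt ℂ Q.gB v := by
  first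
    | exact Kdi.diffB
    | (apply Kdi.diffB <;> assumption)

end Pool.Agent.Helper112.KB
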