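import Pool.Agent.Helper112.Kb.Defs

open Finset

namespace Pool.Agent.Helper112.KB.Kne

theorem N_pos (Q : Par) : (0:ℝ) < 2 ^ Q.M := by positivity

theorem rad_pow_N (Q : Par) (y : ℝ) : Q.rad y ^ Q.N = Real.exp (-(1024 * y)) := by
  simp only [Par.rad, Par.N]
  rw [← Real.exp_nat_mul]
  congr 1
  push_cast
  rw [pow_add]
  have := N_pos Q
  field_simp
  norm_num [mul_comm]

theorem norm_E0 (Q : Par) (w : ℂ) : ‖Q.E0 w‖ = Real.exp 1024 * ‖w‖ ^ Q.N := by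
  simp only [Par.E0]
  rw [norm_mul, norm_pow, Complex.norm_exp]; norm_num

theorem norm_E1 (Q : Par) (w : ℂ) : ‖Q.E1 w‖ = Real.exp (-1280) / ‖w‖ ^ Q.N := by
  simp only [Par.E1]
  rw [norm_div, norm_pow, Complex.norm_exp]; norm_num

theorem normE (Q : Par) (w : ℂ) (y : ℝ) (hw : ‖w‖ = Q.rad y) :
    ‖Q.E0 w‖ = Real.exp (1024 - 1024 * y) ∧ ‖Q.E1 w‖ = Real.exp (1024 * y - 1280) ∧
    ‖Q.E1 (w ^ 2)‖ = Real.exp (2048 * y - 1280) := by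
  refine ⟨?_, ?_, ?_⟩
  · rw [norm_E0, hw, rad_pow_N, ← Real.exp_add]; congr 1
  · rw [norm_E1, hw, rad_pow_N, ← Real.exp_sub]; congr 1; ring
  · rw [norm_E1, norm_pow, hw, ← pow_mul, mul_comm 2, pow_mul, rad_pow_N, ← Real.exp_nat_mul, ← Real.exp_sub]
    congr 1; push_cast; ring

theorem prodE (Q : Par) (w : ℂ) (hw : w ≠ 0) :
    ‖Q.E0 w‖ * ‖Q.E1 w‖ = Real.exp (-256) ∧ ‖Q.E0 w‖ ^ 2 * ‖Q.E1 (w ^ 2)‖ = Real.exp 768 := by
  have h : 0 < ‖w‖ ^ Q.N := by positivity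
  constructor
  · rw [norm_E0, norm_E1]
    have : Real.exp 1024 * ‖w‖ ^ Q.N * (Real.exp (-1280) / ‖w‖ ^ Q.N) = Real.exp 1024 * Real.exp (-1280) := by
      field_simp
    rw [this, ← Real.exp_add]; norm_num
  · rw [norm_E0, norm_E1, norm_pow]
    have : (Real.exp 1024 * ‖w‖ ^ Q.N) ^ 2 * (Real.exp (-1280) / (‖w‖ ^ 2) ^ Q.N) = Real.exp 1024 ^ 2 * Real.exp (-1280) := by
      rw [← pow_mul, mul_comm 2, pow_mul]
      field_simp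
    rw [this, ← Real.exp_nat_mul, ← Real.exp_add]
    congr 1; norm_num

end Pool.Agent.Helper112.KB.Kne

namespace Pool.Agent.Helper112.KB

theorem normE (Q : Par) (w : ℂ) (y : ℝ) (hw : ‖w‖ = Q.rad y) :
    ‖Q.E0 w‖ = Real.exp (1024 - 1024 * y) ∧ ‖Q.E1 w‖ = Real.exp (1024 * y - 1280) ∧
    ‖Q.E1 (w ^ 2)‖ = Real.exp (2048 * y - 1280) := by
  first
    | exact Kne.normE
    | (apply Kne.normE <;> assumption)

theorem prodE (Q : Par) (w : ℂ) (hw : w ≠ 0) :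
    ‖Q.E0 w‖ * ‖Q.E1 w‖ = Real.exp (-256) ∧ ‖Q.E0 w‖ ^ 2 * ‖Q.E1 (w ^ 2)‖ = Real.exp 768 := by
  first
    | exact Kne.prodE
    | (apply Kne.prodE <;> assumption)

end Pool.Agent.Helper112.KB
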