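import Pool.Agent.Helper112.Kb.Defs

open Finset

namespace Pool.Agent.Helper112.KB.Kth

/- TARGET -/
theorem th_small (E : ℂ) (τ : ℝ) (hτ : τ ≤ 1 / 2) (hE : ‖E‖ ≤ τ) : ‖1 / (1 - E) - 1‖ ≤ 2 * τ := by
  have hτ0 : 0 ≤ τ := (norm_nonneg _).trans hE
  have h1 : 1 / 2 ≤ ‖1 - E‖ := by
    have := norm_sub_norm_le (1 : ℂ) E
    rw [norm_one] at this
    linarith
  have h0 : (1 - E) ≠ 0 := by
    intro h
    rw [h, norm_zero] at h1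
    linarith
  have h2 : 1 / (1 - E) - 1 = E / (1 - E) := by
    field_simp
    ring
  rw [h2, norm_div, div_le_iff₀ (by linarith)]
  have h3 : 2 * τ * (1 / 2) ≤ 2 * τ * ‖1 - E‖ := mul_le_mul_of_nonneg_left h1 (by linarith)
  linarith

/- TARGET -/
theorem th_big (E : ℂ) (τ : ℝ) (hτ0 : 0 < τ) (hτ : τ ≤ 1 / 2) (hE : 1 / τ ≤ ‖E‖) :
    ‖1 / (1 - E)‖ ≤ 2 * τ := by
  have h1 : 1 / τ - 1 ≤ ‖1 - E‖ := by
    have := norm_sub_norm_le E (1 : ℂ)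
    rw [norm_one, norm_sub_rev] at this
    linarith
  have h2 : 1 / (2 * τ) ≤ 1 / τ - 1 := by
    rw [div_le_iff₀ (by positivity)]
    have : (1 / τ - 1) * (2 * τ) = 2 - 2 * τ := by field_simp
    rw [this]
    linarith
  have h3 : 0 < 1 / (2 * τ) := by positivity
  rw [norm_div, norm_one, div_le_iff₀ (by linarith)]
  have h4 : 2 * τ * (1 / (2 * τ)) ≤ 2 * τ * ‖1 - E‖ :=
    mul_le_mul_of_nonneg_left (h2.trans h1) (by linarith)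
  have h5 : 2 * τ * (1 / (2 * τ)) = 1 := by field_simp
  linarith

/- TARGET -/
theorem th_hole (E : ℂ) (hE : ‖1 - E‖ = 2 / 3) :
    ‖1 / (1 - E)‖ = 3 / 2 ∧ 1 / 3 ≤ ‖E‖ ∧ ‖E‖ ≤ 5 / 3 := by
  refine ⟨?_, ?_, ?_⟩
  · rw [norm_div, norm_one, hE]; norm_num
  · have := norm_sub_norm_le (1 : ℂ) E
    rw [norm_one, hE] at this
    linarith
  · have := norm_sub_norm_le E (1 : ℂ)
    rw [norm_one, norm_sub_rev, hE] at this
    linarith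

/- TARGET -/
theorem exp_tiny (x : ℝ) (hx : x ≤ -120) : Real.exp x ≤ 1 / 2 ^ 120 := by
  have h1 : (2 : ℝ) ≤ Real.exp 1 := by
    have := Real.add_one_le_exp (1 : ℝ)
    linarith
  have h2 : (2 : ℝ) ^ 120 ≤ Real.exp 120 := by
    calc (2 : ℝ) ^ 120 ≤ Real.exp 1 ^ 120 := pow_le_pow_left₀ (by norm_num) h1 120
      _ = Real.exp 120 := by
        rw [← Real.exp_nat_mul]
        norm_num
  calc Real.exp x ≤ Real.exp (-120) := Real.exp_le_exp.2 hx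
    _ = 1 / Real.exp 120 := by rw [Real.exp_neg, one_div]
    _ ≤ 1 / 2 ^ 120 := one_div_le_one_div_of_le (by positivity) h2

/- TARGET -/
theorem exists_log (E : ℂ) (hE : ‖1 - E‖ = 2 / 3) : ∃ ℓ : ℂ, Complex.exp ℓ = E ∧ ‖ℓ‖ ≤ 57 / 50 := by
  have hE0 : E ≠ 0 := by
    rintro rfl
    rw [sub_zero, norm_one] at hE
    norm_num at hE
  refine ⟨Complex.log E, Complex.exp_log hE0, ?_⟩
  obtain ⟨z, hz⟩ : ∃ z, z = E - 1 := ⟨_, rfl⟩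
  have hzn : ‖z‖ = 2 / 3 := by rw [hz, norm_sub_rev, hE]
  have hEz : E = 1 + z := by rw [hz]; ring
  have h1 := Complex.norm_log_sub_logTaylor_le 3 (z := z) (by rw [hzn]; norm_num)
  have h2 : Complex.logTaylor (3 + 1) z = z - z ^ 2 / 2 + z ^ 3 / 3 := by
    simp only [Complex.logTaylor, Finset.sum_range_succ, Finset.sum_range_zero]
    push_cast
    ring
  rw [h2, hzn, ← hEz] at h1
  have h3 : ‖z - z ^ 2 / 2 + z ^ 3 / 3‖ ≤ 2 / 3 + (2 / 3) ^ 2 / 2 + (2 / 3) ^ 3 / 3 := by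
    calc ‖z - z ^ 2 / 2 + z ^ 3 / 3‖ ≤ ‖z - z ^ 2 / 2‖ + ‖z ^ 3 / 3‖ := norm_add_le _ _
      _ ≤ ‖z‖ + ‖z ^ 2 / 2‖ + ‖z ^ 3 / 3‖ := by
        have := norm_sub_le z (z ^ 2 / 2)
        linarith
      _ = 2 / 3 + (2 / 3) ^ 2 / 2 + (2 / 3) ^ 3 / 3 := by
        rw [norm_div, norm_div, norm_pow, norm_pow, hzn]
        norm_num
  have h4 : ‖Complex.log E‖ ≤ ‖Complex.log E - (z - z ^ 2 / 2 + z ^ 3 / 3)‖ +
      ‖z - z ^ 2 / 2 + z ^ 3 / 3‖ := by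
    have := norm_add_le (Complex.log E - (z - z ^ 2 / 2 + z ^ 3 / 3)) (z - z ^ 2 / 2 + z ^ 3 / 3)
    rwa [sub_add_cancel] at this
  norm_num at h1 h3
  linarith

end Pool.Agent.Helper112.KB.Kth

namespace Pool.Agent.Helper112.KB

theorem th_small (E : ℂ) (τ : ℝ) (hτ : τ ≤ 1 / 2) (hE : ‖E‖ ≤ τ) : ‖1 / (1 - E) - 1‖ ≤ 2 * τ := by
  first
    | exact Kth.th_small
    | (apply Kth.th_small <;> assumption)

theorem th_big (E : ℂ) (τ : ℝ) (hτ0 : 0 < τ) (hτ : τ ≤ 1 / 2) (hE : 1 / τ ≤ ‖E‖) :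
    ‖1 / (1 - E)‖ ≤ 2 * τ := by
  first
    | exact Kth.th_big
    | (apply Kth.th_big <;> assumption)

theorem th_hole (E : ℂ) (hE : ‖1 - E‖ = 2 / 3) :
    ‖1 / (1 - E)‖ = 3 / 2 ∧ 1 / 3 ≤ ‖E‖ ∧ ‖E‖ ≤ 5 / 3 := by
  first
    | exact Kth.th_hole
    | (apply Kth.th_hole <;> assumption)

theorem exp_tiny (x : ℝ) (hx : x ≤ -120) : Real.exp x ≤ 1 / 2 ^ 120 := by
  first
    | exact Kth.exp_tiny
    | (apply Kth.exp_tiny <;> assumption)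

theorem exists_log (E : ℂ) (hE : ‖1 - E‖ = 2 / 3) : ∃ ℓ : ℂ, Complex.exp ℓ = E ∧ ‖ℓ‖ ≤ 57 / 50 := by
  first
    | exact Kth.exists_log
    | (apply Kth.exists_log <;> assumption)

end Pool.Agent.Helper112.KB
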