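import Pool.Agent.Helper112.Kb.Defs
import Pool.Agent.Helper112.Kb.Kal
import Pool.Agent.Helper112.Kb.Kdd
import Pool.Agent.Helper112.Kb.Kne
import Pool.Agent.Helper112.Kb.Knr
import Pool.Agent.Helper112.Kb.Kth

open Finset

namespace Pool.Agent.Helper112.KB.Keb

theorem comb3 {n : ℕ} (a b d : ℂ) (X Y Z : Fin n → ℂ) :
    nrm (fun i => a * X i + b * Y i + d * Z i) ≤ ‖a‖ * nrm X + ‖b‖ * nrm Y + ‖d‖ * nrm Z := by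
  have h1 := nrm_add ((fun i => a * X i) + (fun i => b * Y i)) (fun i => d * Z i)
  have h2 := nrm_add (fun i => a * X i) (fun i => b * Y i)
  rw [nrm_smul, nrm_smul] at h2
  rw [nrm_smul] at h1
  exact h1.trans (add_le_add h2 le_rfl)

theorem nrm_e0 (Q : Par) : nrm Q.e0 ≤ 1 := by
  rw [nrm_le_iff _ _ zero_le_one]
  have h : ∀ i : Fin (Q.M + 5), ‖Q.e0 i‖ ^ 2 = if i = 0 then 1 else 0 := by
    intro i
    unfold Par.e0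
    by_cases hi : i = 0
    · subst hi; simp
    · have : (i : ℕ) ≠ 0 := fun h => hi (Fin.ext h)
      simp [hi, this]
  rw [Finset.sum_congr rfl fun i _ => h i]
  simp

theorem exp_huge (x : ℝ) (hx : 120 ≤ x) : 1 / (1 / 2 ^ 120 : ℝ) ≤ Real.exp x := by
  have h := exp_tiny (-x) (by linarith)
  rw [Real.exp_neg] at h
  rw [one_div_le (by positivity) (Real.exp_pos _), one_div]
  exact h

theorem rad_le_one (Q : Par) (y : ℝ) (hy : 0 ≤ y) : Q.rad y ≤ 1 := by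
  unfold Par.rad
  rw [Real.exp_le_one_iff]
  have : 0 ≤ y / 2 ^ Q.M := by positivity
  linarith

theorem nrm_X (Q : Par) (v : ℂ) (hv : ‖v‖ ≤ 1) : nrm (rot 1 (Q.DD (v ^ 2))) ≤ 2 := by
  rw [nrm_rot]
  apply dd_nrm
  rw [norm_pow]
  exact pow_le_one₀ (norm_nonneg _) hv

theorem nrm_p0 (Q : Par) (v t : ℂ) (hv : ‖v‖ ≤ 1) : ‖(Q.p 0 : ℂ) * v * t‖ ≤ ‖t‖ := by
  rw [norm_mul, norm_mul]
  have h1 : ‖(Q.p 0 : ℂ)‖ ≤ 1 := by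
    rw [Complex.norm_real, Real.norm_eq_abs, Q.p0]
    norm_num [abs_le]
  have h2 : ‖(Q.p 0 : ℂ)‖ * ‖v‖ ≤ 1 := mul_le_one₀ h1 (norm_nonneg _) hv
  exact mul_le_of_le_one_left (norm_nonneg _) h2

/- TARGET -/
theorem startB (Q : Par) (v : ℂ) (hv : ‖v‖ = Q.rad (13 / 16)) :
    nrm (Q.PsiB 0 v - rot 1 (Q.FB (v ^ 2))) ≤ 1 / 2 ^ 40 ∧ ‖Q.gB v - 1‖ ≤ 1 / 4 := by
  have hv1 : ‖v‖ ≤ 1 := by rw [hv]; exact rad_le_one Q _ (by norm_num)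
  obtain ⟨h0, -, h2⟩ := normE Q v _ hv
  have hT : ‖Q.T0 v‖ ≤ 2 * (1 / 2 ^ 120) :=
    th_big _ _ (by norm_num) (by norm_num) (by rw [h0]; exact exp_huge _ (by norm_num))
  have hU : ‖Q.U1 (v ^ 2)‖ ≤ 2 * (1 / 2 ^ 120) :=
    th_big _ _ (by norm_num) (by norm_num) (by rw [h2]; exact exp_huge _ (by norm_num))
  constructor
  · have e : Q.PsiB 0 v - rot 1 (Q.FB (v ^ 2)) = fun i => (-Q.U1 (v ^ 2)) * rot 1 (Q.DD (v ^ 2)) i +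
        ((Q.p 0 : ℂ) * v * Q.T0 v) * Q.e0 i + 0 * (0 : Fin (Q.M + 5) → ℂ) i := by
      rw [psiB0, rot_FB]
      funext i
      simp only [Pi.sub_apply, Pi.zero_apply]
      ring
    rw [e]
    refine (comb3 _ _ _ _ _ _).trans ?_
    have k1 := nrm_X Q v hv1
    have k2 := nrm_e0 Q
    have k3 := nrm_p0 Q v (Q.T0 v) hv1
    have k4 := nrm_nonneg (rot 1 (Q.DD (v ^ 2)))
    have k5 := nrm_nonneg Q.e0
    rw [norm_neg, norm_zero, zero_mul, add_zero]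
    have m1 : ‖Q.U1 (v ^ 2)‖ * nrm (rot 1 (Q.DD (v ^ 2))) ≤ (2 * (1 / 2 ^ 120)) * 2 :=
      mul_le_mul hU k1 k4 (by norm_num)
    have m2 : ‖(Q.p 0 : ℂ) * v * Q.T0 v‖ * nrm Q.e0 ≤ (2 * (1 / 2 ^ 120)) * 1 :=
      mul_le_mul (k3.trans hT) k2 k5 (by norm_num)
    refine (add_le_add m1 m2).trans ?_
    norm_num
  · have e : Q.gB v - 1 = -(Q.U1 (v ^ 2)) - Q.T0 v := by unfold Par.gB; ring
    rw [e]
    refine (norm_sub_le _ _).trans ?_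
    rw [norm_neg]
    refine (add_le_add hU hT).trans ?_
    norm_num

/- TARGET -/
theorem exitB1 (Q : Par) (c : Fin (Q.M + 5) → ℂ) (hc : nrm c ≤ 1 / 2 ^ 18) (v : ℂ)
    (hv : ‖v‖ = Q.rad (9 / 8)) : nrm (Q.PsiB c v - Q.FA v) ≤ 1 / 2 ^ 20 ∧ ‖Q.gB v‖ ≤ 1 / 4 := by
  have hv1 : ‖v‖ ≤ 1 := by rw [hv]; exact rad_le_one Q _ (by norm_num)
  obtain ⟨h0, -, h2⟩ := normE Q v _ hv
  have hT : ‖Q.T0 v - 1‖ ≤ 2 * (1 / 2 ^ 120) :=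
    th_small _ _ (by norm_num) (by rw [h0]; exact exp_tiny _ (by norm_num))
  have hU : ‖Q.U1 (v ^ 2)‖ ≤ 2 * (1 / 2 ^ 120) :=
    th_big _ _ (by norm_num) (by norm_num) (by rw [h2]; exact exp_huge _ (by norm_num))
  have hg : ‖Q.gB v‖ ≤ 4 * (1 / 2 ^ 120) := by
    have e : Q.gB v = -(Q.U1 (v ^ 2)) - (Q.T0 v - 1) := by unfold Par.gB; ring
    rw [e]
    refine (norm_sub_le _ _).trans ?_
    rw [norm_neg]
    refine (add_le_add hU hT).trans ?_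
    norm_num
  refine ⟨?_, hg.trans (by norm_num)⟩
  have e : Q.PsiB c v - Q.FA v = fun i => (-Q.U1 (v ^ 2)) * rot 1 (Q.DD (v ^ 2)) i +
      ((Q.p 0 : ℂ) * v * (Q.T0 v - 1)) * Q.e0 i + Q.gB v * c i := by
    rw [psiB0]
    funext i
    simp only [Pi.sub_apply]
    rw [(fa_eq Q v).1 i]
    ring
  rw [e]
  refine (comb3 _ _ _ _ _ _).trans ?_
  have k1 := nrm_X Q v hv1
  have k2 := nrm_e0 Q
  have k3 := nrm_p0 Q v (Q.T0 v - 1) hv1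
  have k4 := nrm_nonneg (rot 1 (Q.DD (v ^ 2)))
  have k5 := nrm_nonneg Q.e0
  rw [norm_neg]
  have m1 : ‖Q.U1 (v ^ 2)‖ * nrm (rot 1 (Q.DD (v ^ 2))) ≤ (2 * (1 / 2 ^ 120)) * 2 :=
    mul_le_mul hU k1 k4 (by norm_num)
  have m2 : ‖(Q.p 0 : ℂ) * v * (Q.T0 v - 1)‖ * nrm Q.e0 ≤ (2 * (1 / 2 ^ 120)) * 1 :=
    mul_le_mul (k3.trans hT) k2 k5 (by norm_num)
  have m3 : ‖Q.gB v‖ * nrm c ≤ (4 * (1 / 2 ^ 120)) * (1 / 2 ^ 18) :=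
    mul_le_mul hg hc (nrm_nonneg c) (by norm_num)
  refine (add_le_add (add_le_add m1 m2) m3).trans ?_
  norm_num

/- TARGET -/
theorem exitB2 (Q : Par) (c : Fin (Q.M + 5) → ℂ) (hc : nrm c ≤ 1 / 2 ^ 18) (v : ℂ)
    (hv : ‖v‖ = Q.rad (9 / 16)) :
    nrm (Q.PsiB c v - rot 1 (Q.FA (v ^ 2))) ≤ 1 / 2 ^ 20 ∧ ‖Q.gB v‖ ≤ 1 / 4 := by
  have hv1 : ‖v‖ ≤ 1 := by rw [hv]; exact rad_le_one Q _ (by norm_num)
  obtain ⟨h0, -, h2⟩ := normE Q v _ hv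
  have hT : ‖Q.T0 v‖ ≤ 2 * (1 / 2 ^ 120) :=
    th_big _ _ (by norm_num) (by norm_num) (by rw [h0]; exact exp_huge _ (by norm_num))
  have hU : ‖Q.U1 (v ^ 2) - 1‖ ≤ 2 * (1 / 2 ^ 120) :=
    th_small _ _ (by norm_num) (by rw [h2]; exact exp_tiny _ (by norm_num))
  have hg : ‖Q.gB v‖ ≤ 4 * (1 / 2 ^ 120) := by
    have e : Q.gB v = -(Q.U1 (v ^ 2) - 1) - Q.T0 v := by unfold Par.gB; ring
    rw [e]
    refine (norm_sub_le _ _).trans ?_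
    rw [norm_neg]
    refine (add_le_add hU hT).trans ?_
    norm_num
  refine ⟨?_, hg.trans (by norm_num)⟩
  have e : Q.PsiB c v - rot 1 (Q.FA (v ^ 2)) = fun i => (-(Q.U1 (v ^ 2) - 1)) *
      rot 1 (Q.DD (v ^ 2)) i + ((Q.p 0 : ℂ) * v * Q.T0 v) * Q.e0 i + Q.gB v * c i := by
    rw [psiB0]
    funext i
    simp only [Pi.sub_apply]
    rw [(fa_eq Q v).2.2 v i]
    ring
  rw [e]
  refine (comb3 _ _ _ _ _ _).trans ?_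
  have k1 := nrm_X Q v hv1
  have k2 := nrm_e0 Q
  have k3 := nrm_p0 Q v (Q.T0 v) hv1
  have k4 := nrm_nonneg (rot 1 (Q.DD (v ^ 2)))
  have k5 := nrm_nonneg Q.e0
  rw [norm_neg]
  have m1 : ‖Q.U1 (v ^ 2) - 1‖ * nrm (rot 1 (Q.DD (v ^ 2))) ≤ (2 * (1 / 2 ^ 120)) * 2 :=
    mul_le_mul hU k1 k4 (by norm_num)
  have m2 : ‖(Q.p 0 : ℂ) * v * Q.T0 v‖ * nrm Q.e0 ≤ (2 * (1 / 2 ^ 120)) * 1 :=
    mul_le_mul (k3.trans hT) k2 k5 (by norm_num)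
  have m3 : ‖Q.gB v‖ * nrm c ≤ (4 * (1 / 2 ^ 120)) * (1 / 2 ^ 18) :=
    mul_le_mul hg hc (nrm_nonneg c) (by norm_num)
  refine (add_le_add (add_le_add m1 m2) m3).trans ?_
  norm_num

end Pool.Agent.Helper112.KB.Keb

namespace Pool.Agent.Helper112.KB

theorem startB (Q : Par) (v : ℂ) (hv : ‖v‖ = Q.rad (13 / 16)) :
    nrm (Q.PsiB 0 v - rot 1 (Q.FB (v ^ 2))) ≤ 1 / 2 ^ 40 ∧ ‖Q.gB v - 1‖ ≤ 1 / 4 := by
  first
    | exact Keb.startB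
    | (apply Keb.startB <;> assumption)

theorem exitB1 (Q : Par) (c : Fin (Q.M + 5) → ℂ) (hc : nrm c ≤ 1 / 2 ^ 18) (v : ℂ)
    (hv : ‖v‖ = Q.rad (9 / 8)) : nrm (Q.PsiB c v - Q.FA v) ≤ 1 / 2 ^ 20 ∧ ‖Q.gB v‖ ≤ 1 / 4 := by
  first
    | exact Keb.exitB1
    | (apply Keb.exitB1 <;> assumption)

theorem exitB2 (Q : Par) (c : Fin (Q.M + 5) → ℂ) (hc : nrm c ≤ 1 / 2 ^ 18) (v : ℂ)
    (hv : ‖v‖ = Q.rad (9 / 16)) :
    nrm (Q.PsiB c v - rot 1 (Q.FA (v ^ 2))) ≤ 1 / 2 ^ 20 ∧ ‖Q.gB v‖ ≤ 1 / 4 := by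
  first
    | exact Keb.exitB2
    | (apply Keb.exitB2 <;> assumption)

end Pool.Agent.Helper112.KB
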