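import Pool.Agent.Helper112.Kb.Defs

open Finset

namespace Pool.Agent.Helper112.KB.Kfi

noncomputable def pp (M : ℕ) (i : ℕ) : ℝ :=
  if i = 0 then 3 / 5120 else if M + 5 ≤ i then 0 else min 1 (13 / 10240 + ((i : ℝ) - 1) / 2 ^ 40)

theorem fin_cen (Q : Par) : Q.Cen.Finite := by
  have hN : 0 < Q.N := by unfold Par.N; positivity
  have hR : {ω : ℂ | ω ^ Q.N = 1}.Finite := by
    have : {ω : ℂ | ω ^ Q.N = 1} = ((Polynomial.nthRoots Q.N (1:ℂ)).toFinset : Set ℂ) := by
      ext ω
      simp [Polynomial.mem_nthRoots hN]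
    rw [this]; exact Finset.finite_toSet _
  have hF : (Set.univ ×ˢ {ω : ℂ | ω ^ Q.N = 1} : Set (Fin (Q.M + 5) × ℂ)).Finite := Set.finite_univ.prod hR
  refine ((hF.image (fun q => rot q.1 (Q.C0 q.2))).union (hF.image (fun q => rot q.1 (Q.C1 q.2)))).subset ?_
  rintro c ⟨j, ω, hω, h | h⟩
  · exact Or.inl ⟨(j, ω), ⟨Set.mem_univ _, hω⟩, h.symm⟩
  · exact Or.inr ⟨(j, ω), ⟨Set.mem_univ _, hω⟩, h.symm⟩

theorem par_exists : Nonempty Par := by
  refine ⟨{ M := 2 ^ 40 + 13, J := 2 ^ 40 + 1, p := pp (2 ^ 40 + 13), hJ := by omega, hM := by omega, p0 := by simp [pp], p1 := ?_, pmono := ?_, pstep := ?_, pnn := ?_, ple := ?_, pone := ?_, pK := ?_ }⟩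
  · simp only [pp]
    rw [if_neg (by norm_num), if_neg (by norm_num)]
    norm_num
  · intro i h1 h2
    simp only [pp]
    rw [if_neg (by omega), if_neg (by omega), if_neg (by omega), if_neg (by omega)]
    apply min_le_min le_rfl
    push_cast
    have : ((i:ℝ) - 1) / 2 ^ 40 ≤ ((i:ℝ) + 1 - 1) / 2 ^ 40 := by
      apply div_le_div_of_nonneg_right _ (by positivity)
      linarith
    linarith
  · intro i h1 h2
    simp only [pp]
    rw [if_neg (by omega), if_neg (by omega), if_neg (by omega), if_neg (by omega)]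
    push_cast
    have : ((i:ℝ) + 1 - 1) / 2 ^ 40 = ((i:ℝ) - 1) / 2 ^ 40 + 1 / 2 ^ 40 := by ring
    rw [this]
    have h0 : (0:ℝ) ≤ 1 / 2 ^ 40 := by positivity
    rcases min_cases (1:ℝ) (13 / 10240 + ((i:ℝ) - 1) / 2 ^ 40) with ⟨h, h'⟩ | ⟨h, h'⟩
    · rw [h]; exact (min_le_left _ _).trans (by linarith)
    · rw [h]; exact (min_le_right _ _).trans (by linarith)
  · intro i
    simp only [pp]
    split_ifs with h1 h2
    · norm_num
    · exact le_rfl
    · have : (1:ℝ) ≤ i := by exact_mod_cast Nat.one_le_iff_ne_zero.mpr h1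
      have h3 : 0 ≤ ((i:ℝ) - 1) / 2 ^ 40 := div_nonneg (by linarith) (by positivity)
      exact le_min (by norm_num) (by linarith)
  · intro i
    simp only [pp]
    split_ifs with h1 h2
    · norm_num
    · norm_num
    · exact min_le_left _ _
  · intro i h1 h2
    simp only [pp]
    rw [if_neg (by omega), if_neg (by omega)]
    apply min_eq_left
    have h3 : ((2:ℝ) ^ 40 + 1) ≤ i := by exact_mod_cast h1
    have h4 : 1 ≤ ((i:ℝ) - 1) / 2 ^ 40 := by
      rw [le_div_iff₀ (by positivity)]; linarith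
    linarith
  · simp only [pp]
    rw [if_neg (by omega), if_pos (by omega)]

end Pool.Agent.Helper112.KB.Kfi

namespace Pool.Agent.Helper112.KB

theorem fin_cen (Q : Par) : Q.Cen.Finite := by
  first
    | exact Kfi.fin_cen
    | (apply Kfi.fin_cen <;> assumption)

theorem par_exists : Nonempty Par := by
  first
    | exact Kfi.par_exists
    | (apply Kfi.par_exists <;> assumption)

end Pool.Agent.Helper112.KB
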