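import Pool.Agent.Helper112.Kb.Defs
import Pool.Agent.Helper112.Kb.Knr
import Pool.Agent.Helper112.Kb.Kro
import Pool.Agent.Helper112.Kb.Ksu
import Pool.Agent.Helper112.Kb.Kth

open Finset

namespace Pool.Agent.Helper112.KB.Kh0

theorem norm_one_of_pow (Q : Par) (ω : ℂ) (hω : ω ^ Q.N = 1) : ‖ω‖ = 1 := by
  have hN : Q.N ≠ 0 := by
    unfold Par.N
    positivity
  have h1 : ‖ω‖ ^ Q.N = 1 := by rw [← norm_pow, hω, norm_one]
  exact (pow_eq_one_iff_of_nonneg (norm_nonneg _) hN).1 h1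

theorem rad_le_one (Q : Par) (y : ℝ) (hy : 0 ≤ y) : Q.rad y ≤ 1 := by
  unfold Par.rad
  rw [Real.exp_le_one_iff]
  have : 0 ≤ y / 2 ^ Q.M := by positivity
  linarith

/- TARGET -/
theorem hole0 (Q : Par) (w : ℂ) (hw : ‖1 - Q.E0 w‖ = 2 / 3) :
    ∃ ω : ℂ, ω ^ Q.N = 1 ∧ nrm (Q.R0 w - Q.C0 ω) ≤ 3 / 2560 := by
  obtain ⟨ω, ℓ, hω, hℓ, hwe⟩ := root0 Q w hw
  refine ⟨ω, hω, ?_⟩
  have hω1 := norm_one_of_pow Q ω hω
  have hM12 : 12 ≤ Q.M := by have := Q.hM; omega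
  rw [nrm_le_iff _ _ (by norm_num)]
  have hT : ‖Q.T0 w‖ = 3 / 2 := (th_hole (Q.E0 w) hw).1
  have hw1 : ‖w‖ ≤ 1 := by
    rw [hwe]
    exact (slot_rad Q 1 ω ℓ hω1 hℓ).trans (rad_le_one Q _ (by norm_num))
  set b : ℕ → ℝ := fun i => (if i = 0 then (9 / 10240 : ℝ) ^ 2 else 0) +
    (57 / 51200) ^ 2 * (((2 : ℝ) ^ i / 2 ^ Q.M) ^ 2 *
      Real.exp (-(2 * ((2 : ℝ) ^ i / 2 ^ Q.M) * (99 / 100)))) with hb
  have hterm : ∀ i : Fin (Q.M + 5), ‖(Q.R0 w - Q.C0 ω) i‖ ^ 2 ≤ b (i : ℕ) := by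
    intro i
    by_cases hi : (i : ℕ) = 0
    · have h1 : (Q.R0 w - Q.C0 ω) i = (Q.p 0 : ℂ) * w * Q.T0 w := by
        rw [Pi.sub_apply]
        unfold Par.R0 Par.C0 Par.F0 Par.e0
        rw [if_pos hi, if_pos hi, if_pos hi]
        ring
      have h2 : ‖(Q.R0 w - Q.C0 ω) i‖ ≤ 9 / 10240 := by
        rw [h1, norm_mul, norm_mul, hT, Complex.norm_real, Real.norm_eq_abs,
          abs_of_nonneg (Q.pnn 0), Q.p0]
        linarith
      have h3 : ‖(Q.R0 w - Q.C0 ω) i‖ ^ 2 ≤ (9 / 10240) ^ 2 :=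
        pow_le_pow_left₀ (norm_nonneg _) h2 2
      have h4 : b (i : ℕ) = (9 / 10240 : ℝ) ^ 2 +
          (57 / 51200) ^ 2 * (((2 : ℝ) ^ (i : ℕ) / 2 ^ Q.M) ^ 2 *
          Real.exp (-(2 * ((2 : ℝ) ^ (i : ℕ) / 2 ^ Q.M) * (99 / 100)))) := by
        rw [hb]
        simp only [hi, if_true]
      rw [h4]
      have h5 : 0 ≤ (57 / 51200 : ℝ) ^ 2 * (((2 : ℝ) ^ (i : ℕ) / 2 ^ Q.M) ^ 2 *
          Real.exp (-(2 * ((2 : ℝ) ^ (i : ℕ) / 2 ^ Q.M) * (99 / 100)))) := by positivity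
      linarith
    · have h1 : (Q.R0 w - Q.C0 ω) i = (Q.p (i : ℕ) : ℂ) *
          (w ^ (2 ^ (i : ℕ)) - (ω * (Q.rad 1 : ℂ)) ^ (2 ^ (i : ℕ))) := by
        rw [Pi.sub_apply]
        unfold Par.R0 Par.C0 Par.F0 Par.e0
        rw [if_neg hi, if_neg hi, if_neg hi]
        ring
      set s : ℝ := (2 : ℝ) ^ (i : ℕ) / 2 ^ Q.M with hs
      have hs0 : 0 ≤ s := by rw [hs]; positivity
      have h2 : ‖w ^ (2 ^ (i : ℕ)) - (ω * (Q.rad 1 : ℂ)) ^ (2 ^ (i : ℕ))‖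
          ≤ (57 / 51200) * s * Real.exp (-(s * (1 - 1 / 800))) := by
        have := slot Q 1 zero_le_one ω ℓ hω1 hℓ (i : ℕ) i.2
        rw [← hwe] at this
        exact this
      have h3 : ‖(Q.R0 w - Q.C0 ω) i‖ ≤ (57 / 51200) * s * Real.exp (-(s * (99 / 100))) := by
        rw [h1, norm_mul, Complex.norm_real, Real.norm_eq_abs, abs_of_nonneg (Q.pnn _)]
        calc Q.p (i : ℕ) * ‖w ^ (2 ^ (i : ℕ)) - (ω * (Q.rad 1 : ℂ)) ^ (2 ^ (i : ℕ))‖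
            ≤ 1 * ‖w ^ (2 ^ (i : ℕ)) - (ω * (Q.rad 1 : ℂ)) ^ (2 ^ (i : ℕ))‖ :=
              mul_le_mul_of_nonneg_right (Q.ple _) (norm_nonneg _)
          _ ≤ (57 / 51200) * s * Real.exp (-(s * (1 - 1 / 800))) := by rw [one_mul]; exact h2
          _ ≤ (57 / 51200) * s * Real.exp (-(s * (99 / 100))) := by
              apply mul_le_mul_of_nonneg_left _ (by positivity)
              apply Real.exp_le_exp.2
              nlinarith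
      have h4 : ‖(Q.R0 w - Q.C0 ω) i‖ ^ 2 ≤
          ((57 / 51200) * s * Real.exp (-(s * (99 / 100)))) ^ 2 :=
        pow_le_pow_left₀ (norm_nonneg _) h3 2
      have h5 : ((57 / 51200) * s * Real.exp (-(s * (99 / 100)))) ^ 2
          = (57 / 51200) ^ 2 * (s ^ 2 * Real.exp (-(2 * s * (99 / 100)))) := by
        have h6 : Real.exp (-(2 * s * (99 / 100))) = Real.exp (-(s * (99 / 100))) ^ 2 := by
          rw [← Real.exp_nat_mul]
          congr 1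
          push_cast
          ring
        rw [h6]
        ring
      have h7 : b (i : ℕ) = (57 / 51200) ^ 2 * (s ^ 2 * Real.exp (-(2 * s * (99 / 100)))) := by
        rw [hb]
        simp only [hi, if_false, zero_add, ← hs]
      rw [h7, ← h5]
      exact h4
  calc ∑ i, ‖(Q.R0 w - Q.C0 ω) i‖ ^ 2 ≤ ∑ i : Fin (Q.M + 5), b (i : ℕ) :=
        Finset.sum_le_sum (fun i _ => hterm i)
    _ = ∑ i ∈ range (Q.M + 5), b i := Fin.sum_univ_eq_sum_range b (Q.M + 5)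
    _ = (9 / 10240) ^ 2 + (57 / 51200) ^ 2 * ∑ i ∈ range (Q.M + 5),
          ((2 : ℝ) ^ i / 2 ^ Q.M) ^ 2 * Real.exp (-(2 * ((2 : ℝ) ^ i / 2 ^ Q.M) * (99 / 100))) := by
        rw [hb, Finset.sum_add_distrib, Finset.mul_sum]
        congr 1
        rw [Finset.sum_ite_eq' (range (Q.M + 5)) 0 (fun _ => (9 / 10240 : ℝ) ^ 2)]
        rw [if_pos (Finset.mem_range.2 (by omega))]
    _ ≤ (9 / 10240) ^ 2 + (57 / 51200) ^ 2 * (2 / 5) := by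
        have := sumA Q.M hM12
        nlinarith
    _ ≤ (3 / 2560) ^ 2 := by norm_num

end Pool.Agent.Helper112.KB.Kh0

namespace Pool.Agent.Helper112.KB

theorem hole0 (Q : Par) (w : ℂ) (hw : ‖1 - Q.E0 w‖ = 2 / 3) :
    ∃ ω : ℂ, ω ^ Q.N = 1 ∧ nrm (Q.R0 w - Q.C0 ω) ≤ 3 / 2560 := by
  first
    | exact Kh0.hole0
    | (apply Kh0.hole0 <;> assumption)

end Pool.Agent.Helper112.KB
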