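import Pool.Agent.Helper112.Kb.Defs
import Pool.Agent.Helper112.Kb.Kal
import Pool.Agent.Helper112.Kb.Kdi
import Pool.Agent.Helper112.Kb.Kdo
import Pool.Agent.Helper112.Kb.Kea
import Pool.Agent.Helper112.Kb.Kha
import Pool.Agent.Helper112.Kb.Knr

open Finset

namespace Pool.Agent.Helper112.KB.KpA

theorem PsiA_split6576 (Q : Par) (c : Fin (Q.M + 5) → ℂ) (w : ℂ) (i : Fin (Q.M + 5)) :
    Q.PsiA c w i = Q.PsiA 0 w i + Q.gA w * c i := by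
  simp only [Par.PsiA, Pi.zero_apply, mul_zero, add_zero]

/- TARGET -/
theorem pieceA (Q : Par) (w₀ : ℂ) (η : Fin (Q.M + 5) → ℂ) (hw : ‖w₀‖ = Q.rad (9 / 8))
    (hη : nrm η ≤ 1 / 2 ^ 20) :
    ∃ (G : Set ℂ) (Ψ : ℂ → Fin (Q.M + 5) → ℂ) (g : ℂ → ℂ) (v₀ : ℂ), Bornology.IsBounded G ∧ v₀ ∈ G ∧
      (∀ v ∈ closure G, (∀ i, DifferentiableAt ℂ (fun z => Ψ z i) v) ∧ DifferentiableAt ℂ g v) ∧
      Ψ v₀ = Q.FA w₀ + η ∧ 1 / 2 ≤ ‖g v₀‖ ∧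
      ∀ v ∈ frontier G, (Q.InX (Ψ v) ∧ ‖g v‖ ≤ 3) ∨ (Q.InT (Ψ v) ∧ ‖g v‖ ≤ 1 / 4) := by
  obtain ⟨hopen, hbdd, hcl, hfr, hstart⟩ := domA Q
  obtain ⟨hs1, hs2⟩ := startA Q w₀ hw
  have hg : 3 / 4 ≤ ‖Q.gA w₀‖ := by
    have h := norm_sub_norm_le (1 : ℂ) (1 - Q.gA w₀)
    have h2 : ‖(1 : ℂ) - Q.gA w₀‖ ≤ 1 / 4 := by rw [norm_sub_rev]; exact hs2
    rw [norm_one] at h
    have h3 : (1 : ℂ) - (1 - Q.gA w₀) = Q.gA w₀ := by ring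
    rw [h3] at h
    linarith
  have hg0 : Q.gA w₀ ≠ 0 := by
    intro h
    rw [h, norm_zero] at hg
    linarith
  set c : Fin (Q.M + 5) → ℂ := fun i => (Q.gA w₀)⁻¹ * (η - (Q.PsiA 0 w₀ - Q.FA w₀)) i with hc
  have hcn : nrm c ≤ 1 / 2 ^ 18 := by
    have h1 : nrm c = ‖(Q.gA w₀)⁻¹‖ * nrm (η - (Q.PsiA 0 w₀ - Q.FA w₀)) := nrm_smul _ _
    have h2 := nrm_sub η (Q.PsiA 0 w₀ - Q.FA w₀)
    have h3 : ‖(Q.gA w₀)⁻¹‖ ≤ 4 / 3 := by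
      rw [norm_inv]
      have : ‖Q.gA w₀‖⁻¹ ≤ (3 / 4 : ℝ)⁻¹ := inv_anti₀ (by norm_num) hg
      norm_num at this ⊢
      exact this
    have h4 := nrm_nonneg (η - (Q.PsiA 0 w₀ - Q.FA w₀))
    rw [h1]
    calc ‖(Q.gA w₀)⁻¹‖ * nrm (η - (Q.PsiA 0 w₀ - Q.FA w₀))
        ≤ 4 / 3 * (1 / 2 ^ 20 + 1 / 2 ^ 40) := by
          apply mul_le_mul h3 (by linarith) h4 (by norm_num)
      _ ≤ 1 / 2 ^ 18 := by norm_num
  refine ⟨Q.GA, Q.PsiA c, Q.gA, w₀, hbdd, hstart w₀ hw, ?_, ?_, by linarith, ?_⟩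
  · intro v hv
    obtain ⟨h0, h1, h2⟩ := hcl v hv
    exact diffA Q c v h0 h1 h2
  · funext i
    rw [PsiA_split6576, hc]
    simp only [Pi.sub_apply, Pi.add_apply]
    field_simp
    ring
  · intro v hv
    have hv0 : v ≠ 0 := (hcl v (frontier_subset_closure hv)).1
    rcases hfr v hv with h | h | h | h
    · right
      obtain ⟨h1, h2⟩ := exitA1 Q c hcn v h
      refine ⟨⟨0, v, Q.PsiA c v - Q.FB v, h1, Or.inr ⟨h, ?_⟩⟩, h2⟩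
      funext i
      simp [rot]
    · right
      obtain ⟨h1, h2⟩ := exitA2 Q c hcn v h
      refine ⟨⟨1, v ^ 2, rot (-1) (Q.PsiA c v - rot 1 (Q.FB (v ^ 2))), ?_, Or.inr ⟨?_, ?_⟩⟩, h2⟩
      · rw [nrm_rot]; exact h1
      · rw [norm_pow, h, Par.rad, Par.rad, ← Real.exp_nat_mul]
        congr 1
        push_cast
        ring
      · have e1 : rot (1 : Fin (Q.M + 5)) (Q.FB (v ^ 2) +
            rot (-1) (Q.PsiA c v - rot 1 (Q.FB (v ^ 2)))) =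
            rot 1 (Q.FB (v ^ 2)) + rot 1 (rot (-1) (Q.PsiA c v - rot 1 (Q.FB (v ^ 2)))) := by
          funext i
          rfl
        rw [e1, rot_rot, add_neg_cancel]
        funext i
        simp [rot]
    · left
      exact holeA0 Q c hcn v hv0 h
    · left
      exact holeA1 Q c hcn v hv0 h

end Pool.Agent.Helper112.KB.KpA

namespace Pool.Agent.Helper112.KB

theorem pieceA (Q : Par) (w₀ : ℂ) (η : Fin (Q.M + 5) → ℂ) (hw : ‖w₀‖ = Q.rad (9 / 8))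
    (hη : nrm η ≤ 1 / 2 ^ 20) :
    ∃ (G : Set ℂ) (Ψ : ℂ → Fin (Q.M + 5) → ℂ) (g : ℂ → ℂ) (v₀ : ℂ), Bornology.IsBounded G ∧ v₀ ∈ G ∧
      (∀ v ∈ closure G, (∀ i, DifferentiableAt ℂ (fun z => Ψ z i) v) ∧ DifferentiableAt ℂ g v) ∧
      Ψ v₀ = Q.FA w₀ + η ∧ 1 / 2 ≤ ‖g v₀‖ ∧
      ∀ v ∈ frontier G, (Q.InX (Ψ v) ∧ ‖g v‖ ≤ 3) ∨ (Q.InT (Ψ v) ∧ ‖g v‖ ≤ 1 / 4) := by
  first
    | exact KpA.pieceA
    | (apply KpA.pieceA <;> assumption)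

end Pool.Agent.Helper112.KB
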