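import Pool.Agent.Helper112.Kb.Defs
import Pool.Agent.Helper112.Kb.Kal
import Pool.Agent.Helper112.Kb.Kdd
import Pool.Agent.Helper112.Kb.Kh0
import Pool.Agent.Helper112.Kb.Kh1
import Pool.Agent.Helper112.Kb.Kne
import Pool.Agent.Helper112.Kb.Knr
import Pool.Agent.Helper112.Kb.Kth

open Finset

namespace Pool.Agent.Helper112.KB.Khb

theorem h170_exp384 : (3:ℝ) * 2 ^ 120 ≤ Real.exp 384 := by
  have h1 := exp_tiny (-382) (by norm_num)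
  rw [Real.exp_neg] at h1
  have h2 : (2:ℝ) ^ 120 ≤ Real.exp 382 := by
    have h3 : (0:ℝ) < Real.exp 382 := Real.exp_pos _
    have h4 := mul_le_mul_of_nonneg_left h1 (by positivity : (0:ℝ) ≤ 2 ^ 120 * Real.exp 382)
    have h5 : (2:ℝ) ^ 120 * Real.exp 382 * (Real.exp 382)⁻¹ = 2 ^ 120 := by
      rw [mul_assoc, mul_inv_cancel₀ h3.ne', mul_one]
    have h6 : (2:ℝ) ^ 120 * Real.exp 382 * (1 / 2 ^ 120) = Real.exp 382 := by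
      field_simp
    rw [h5, h6] at h4
    exact h4
  have h3 : (3:ℝ) ≤ Real.exp 2 := by
    have := Real.add_one_le_exp (2:ℝ)
    linarith
  have h4 : Real.exp 384 = Real.exp 2 * Real.exp 382 := by
    rw [← Real.exp_add]; norm_num
  rw [h4]
  exact mul_le_mul h3 h2 (by positivity) (by positivity)

theorem h170_exp768 : (9:ℝ) * (2 ^ 120) ^ 2 ≤ Real.exp 768 := by
  have h1 := h170_exp384
  have h2 : Real.exp 768 = Real.exp 384 ^ 2 := by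
    rw [← Real.exp_nat_mul]; norm_num
  rw [h2]
  calc (9:ℝ) * (2 ^ 120) ^ 2 = (3 * 2 ^ 120) ^ 2 := by ring
    _ ≤ _ := pow_le_pow_left₀ (by positivity) h1 2

theorem h170_gbound (E : ℂ) (hE : ‖1 - E‖ = 2 / 3) (hE' : ‖E‖ ≤ 5 / 3) : ‖1 - 1 / (1 - E)‖ ≤ 5 / 2 := by
  have hne : (1:ℂ) - E ≠ 0 := by
    intro h
    rw [h, norm_zero] at hE
    norm_num at hE
  have e : 1 - 1 / (1 - E) = -E / (1 - E) := by
    field_simp
    ring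
  rw [e, norm_div, norm_neg, hE, div_le_iff₀ (by norm_num)]
  linarith

theorem h170_e0 (Q : Par) : nrm Q.e0 ≤ 1 := by
  rw [nrm_le_iff _ _ zero_le_one]
  have h0 : (0 : Fin (Q.M + 5)) ∈ (Finset.univ : Finset (Fin (Q.M + 5))) := Finset.mem_univ _
  rw [Finset.sum_eq_single_of_mem 0 h0]
  · simp [Par.e0]
  · intro i _ hi
    have : (i : ℕ) ≠ 0 := by
      intro h
      apply hi
      exact Fin.ext h
    simp [Par.e0, this]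

theorem h170_rot0 {n : ℕ} [NeZero n] (x : Fin n → ℂ) : rot 0 x = x := by
  funext i
  simp [rot]

theorem h170_N (Q : Par) : 1 ≤ Q.N := by
  unfold Par.N
  exact Nat.one_le_two_pow

theorem h170_tau1 : (2:ℝ) * (1 / 2 ^ 120) ≤ 1 / 10 ^ 6 := by norm_num

/- TARGET -/
theorem holeB0 (Q : Par) (c : Fin (Q.M + 5) → ℂ) (hc : nrm c ≤ 1 / 2 ^ 18) (v : ℂ)
    (hv0 : v ≠ 0) (hv : ‖1 - Q.E0 v‖ = 2 / 3) : Q.InX (Q.PsiB c v) ∧ ‖Q.gB v‖ ≤ 3 := by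
  obtain ⟨t1, t2, t3⟩ := th_hole (Q.E0 v) hv
  obtain ⟨-, p2⟩ := prodE Q v hv0
  have hv1 : ‖v‖ ≤ 1 := by
    by_contra hcon
    push Not at hcon
    have h1 : 1 ≤ ‖v‖ ^ Q.N := one_le_pow₀ hcon.le
    have h2 : ‖Q.E0 v‖ = Real.exp 1024 * ‖v‖ ^ Q.N := by
      unfold Par.E0
      rw [norm_mul, norm_pow, Complex.norm_exp]
      norm_num
    have h3 := Real.add_one_le_exp (1024:ℝ)
    rw [h2] at t3
    nlinarith
  have hU : ‖Q.U1 (v ^ 2)‖ ≤ 2 * (1 / 2 ^ 120) := by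
    unfold Par.U1
    refine th_big _ _ (by positivity) (by norm_num) ?_
    rw [one_div_one_div]
    have h1 := h170_exp768
    rw [← p2] at h1
    have h2 : ‖Q.E0 v‖ ^ 2 ≤ 25 / 9 := by
      have := pow_le_pow_left₀ (norm_nonneg _) t3 2
      norm_num at this
      exact this
    have h3 : ‖Q.E0 v‖ ^ 2 * ‖Q.E1 (v ^ 2)‖ ≤ 25 / 9 * ‖Q.E1 (v ^ 2)‖ :=
      mul_le_mul_of_nonneg_right h2 (norm_nonneg _)
    have h4 : (9:ℝ) * (2 ^ 120) ^ 2 ≤ 25 / 9 * ‖Q.E1 (v ^ 2)‖ := h1.trans h3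
    have h5 : (25 / 9 : ℝ) * 2 ^ 120 ≤ 9 * (2 ^ 120) ^ 2 := by norm_num
    linarith
  have hg : ‖Q.gB v‖ ≤ 3 := by
    have e : Q.gB v = (1 - 1 / (1 - Q.E0 v)) - Q.U1 (v ^ 2) := by
      unfold Par.gB Par.T0
      ring
    rw [e]
    refine (norm_sub_le _ _).trans ?_
    have h1 := h170_gbound (Q.E0 v) hv t3
    have h2 := h170_tau1
    linarith
  refine ⟨?_, hg⟩
  obtain ⟨ω, hω, hR⟩ := hole0 Q v hv
  refine ⟨Q.C0 ω, ⟨0, ω, hω, Or.inl (h170_rot0 _).symm⟩, ?_⟩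
  have e : Q.PsiB c v - Q.C0 ω = ((Q.R0 v - Q.C0 ω) - (fun i => Q.U1 (v ^ 2) * rot 1 (Q.DD (v ^ 2)) i)) +
      (fun i => Q.gB v * c i) := by
    rw [psiB0]
    funext i
    simp only [Pi.sub_apply, Pi.add_apply, Par.R0]
    ring
  rw [e]
  refine (nrm_add _ _).trans ?_
  have h1 := nrm_sub (Q.R0 v - Q.C0 ω) (fun i => Q.U1 (v ^ 2) * rot 1 (Q.DD (v ^ 2)) i)
  rw [nrm_smul, nrm_rot] at h1
  rw [nrm_smul]
  have h2 : nrm (Q.DD (v ^ 2)) ≤ 2 := by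
    refine dd_nrm Q _ ?_
    rw [norm_pow]
    exact pow_le_one₀ (norm_nonneg _) hv1
  have h3 : ‖Q.U1 (v ^ 2)‖ * nrm (Q.DD (v ^ 2)) ≤ 1 / 10 ^ 6 * 2 :=
    mul_le_mul (hU.trans h170_tau1) h2 (nrm_nonneg _) (by positivity)
  have h4 : ‖Q.gB v‖ * nrm c ≤ 3 * (1 / 2 ^ 18) := mul_le_mul hg hc (nrm_nonneg _) (by positivity)
  have h5 : (3:ℝ) / 2560 + 1 / 10 ^ 6 * 2 + 3 * (1 / 2 ^ 18) ≤ 31 / 25600 := by norm_num
  linarith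

/- TARGET -/
theorem holeB1 (Q : Par) (c : Fin (Q.M + 5) → ℂ) (hc : nrm c ≤ 1 / 2 ^ 18) (v : ℂ)
    (hv0 : v ≠ 0) (hv : ‖1 - Q.E1 (v ^ 2)‖ = 2 / 3) : Q.InX (Q.PsiB c v) ∧ ‖Q.gB v‖ ≤ 3 := by
  obtain ⟨t1, t2, t3⟩ := th_hole (Q.E1 (v ^ 2)) hv
  obtain ⟨-, p2⟩ := prodE Q v hv0
  have hw0 : v ^ 2 ≠ 0 := pow_ne_zero 2 hv0
  have hv1 : ‖v‖ ≤ 1 := by
    by_contra hcon
    push Not at hcon
    have h1 : 1 ≤ ‖v ^ 2‖ ^ Q.N := by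
      rw [norm_pow]
      exact one_le_pow₀ (one_le_pow₀ hcon.le)
    have h2 : ‖Q.E1 (v ^ 2)‖ = Real.exp (-1280) / ‖v ^ 2‖ ^ Q.N := by
      unfold Par.E1
      rw [norm_div, norm_pow _ Q.N, Complex.norm_exp]
      norm_num
    have h3 := exp_tiny (-1280) (by norm_num)
    rw [h2] at t2
    have h4 : Real.exp (-1280) / ‖v ^ 2‖ ^ Q.N ≤ Real.exp (-1280) := div_le_self (Real.exp_pos _).le h1
    have h5 : (1:ℝ) / 2 ^ 120 < 1 / 3 := by norm_num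
    linarith
  have hT : ‖Q.T0 v‖ ≤ 2 * (1 / 2 ^ 120) := by
    unfold Par.T0
    refine th_big _ _ (by positivity) (by norm_num) ?_
    rw [one_div_one_div]
    refine le_of_sq_le_sq ?_ (norm_nonneg _)
    have h1 := h170_exp768
    rw [← p2] at h1
    have h3 : ‖Q.E0 v‖ ^ 2 * ‖Q.E1 (v ^ 2)‖ ≤ ‖Q.E0 v‖ ^ 2 * (5 / 3) :=
      mul_le_mul_of_nonneg_left t3 (by positivity)
    have h4 : (0:ℝ) ≤ (2 ^ 120) ^ 2 := by positivity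
    linarith
  have hg : ‖Q.gB v‖ ≤ 3 := by
    have e : Q.gB v = (1 - 1 / (1 - Q.E1 (v ^ 2))) - Q.T0 v := by
      unfold Par.gB Par.U1
      ring
    rw [e]
    refine (norm_sub_le _ _).trans ?_
    have h1 := h170_gbound (Q.E1 (v ^ 2)) hv t3
    have h2 := h170_tau1
    linarith
  refine ⟨?_, hg⟩
  obtain ⟨ω, hω, hR⟩ := hole1 Q (v ^ 2) hw0 hv
  refine ⟨rot 1 (Q.C1 ω), ⟨1, ω, hω, Or.inr rfl⟩, ?_⟩
  have e : Q.PsiB c v - rot 1 (Q.C1 ω) = (rot 1 (Q.R1 (v ^ 2) - Q.C1 ω) +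
      (fun i => ((Q.p 0 : ℂ) * v * Q.T0 v) * Q.e0 i)) + (fun i => Q.gB v * c i) := by
    funext i
    simp only [Pi.sub_apply, Pi.add_apply, Par.PsiB, rot]
    ring
  rw [e]
  refine (nrm_add _ _).trans ?_
  have h1 := nrm_add (rot 1 (Q.R1 (v ^ 2) - Q.C1 ω)) (fun i => ((Q.p 0 : ℂ) * v * Q.T0 v) * Q.e0 i)
  rw [nrm_smul, nrm_rot] at h1
  rw [nrm_smul]
  have h3 : ‖(Q.p 0 : ℂ) * v * Q.T0 v‖ * nrm Q.e0 ≤ (1 * 1 * (1 / 10 ^ 6)) * 1 := by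
    refine mul_le_mul ?_ (h170_e0 Q) (nrm_nonneg _) (by positivity)
    rw [norm_mul, norm_mul]
    refine mul_le_mul (mul_le_mul ?_ hv1 (norm_nonneg _) zero_le_one) (hT.trans h170_tau1)
      (norm_nonneg _) (by positivity)
    rw [Complex.norm_real, Real.norm_of_nonneg (Q.pnn 0)]
    exact Q.ple 0
  have h4 : ‖Q.gB v‖ * nrm c ≤ 3 * (1 / 2 ^ 18) := mul_le_mul hg hc (nrm_nonneg _) (by positivity)
  have h5 : (61:ℝ) / 51200 + 1 / 10 ^ 6 + 3 * (1 / 2 ^ 18) ≤ 31 / 25600 := by norm_num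
  linarith

end Pool.Agent.Helper112.KB.Khb

namespace Pool.Agent.Helper112.KB

theorem holeB0 (Q : Par) (c : Fin (Q.M + 5) → ℂ) (hc : nrm c ≤ 1 / 2 ^ 18) (v : ℂ)
    (hv0 : v ≠ 0) (hv : ‖1 - Q.E0 v‖ = 2 / 3) : Q.InX (Q.PsiB c v) ∧ ‖Q.gB v‖ ≤ 3 := by
  first
    | exact Khb.holeB0
    | (apply Khb.holeB0 <;> assumption)

theorem holeB1 (Q : Par) (c : Fin (Q.M + 5) → ℂ) (hc : nrm c ≤ 1 / 2 ^ 18) (v : ℂ)
    (hv0 : v ≠ 0) (hv : ‖1 - Q.E1 (v ^ 2)‖ = 2 / 3) : Q.InX (Q.PsiB c v) ∧ ‖Q.gB v‖ ≤ 3 := by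
  first
    | exact Khb.holeB1
    | (apply Khb.holeB1 <;> assumption)

end Pool.Agent.Helper112.KB
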