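import Pool.Agent.Helper112.Kb.Defs
import Pool.Agent.Helper112.Kb.Kal
import Pool.Agent.Helper112.Kb.Kdi
import Pool.Agent.Helper112.Kb.Kdo
import Pool.Agent.Helper112.Kb.Keb
import Pool.Agent.Helper112.Kb.Khb
import Pool.Agent.Helper112.Kb.Knr

open Finset

namespace Pool.Agent.Helper112.KB.KpB

theorem aux_rad_sq (Q : Par) (y : ℝ) : Q.rad y ^ 2 = Q.rad (2 * y) := by
  unfold Par.rad
  rw [← Real.exp_nat_mul]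
  congr 1
  push_cast
  ring

theorem aux_rad_pos (Q : Par) (y : ℝ) : 0 < Q.rad y := Real.exp_pos _

theorem aux_rot_zero {n : ℕ} [NeZero n] (x : Fin n → ℂ) : rot 0 x = x := by
  funext i
  show x (i - 0) = x i
  rw [sub_zero]

theorem aux_rot_add {n : ℕ} (j : Fin n) (x y : Fin n → ℂ) : rot j (x + y) = rot j x + rot j y := rfl

/- TARGET -/
theorem pieceB (Q : Par) (w₀ : ℂ) (η : Fin (Q.M + 5) → ℂ) (hw : ‖w₀‖ = Q.rad (13 / 8))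
    (hη : nrm η ≤ 1 / 2 ^ 20) :
    ∃ (G : Set ℂ) (Ψ : ℂ → Fin (Q.M + 5) → ℂ) (g : ℂ → ℂ) (v₀ : ℂ), Bornology.IsBounded G ∧ v₀ ∈ G ∧
      (∀ v ∈ closure G, (∀ i, DifferentiableAt ℂ (fun z => Ψ z i) v) ∧ DifferentiableAt ℂ g v) ∧
      Ψ v₀ = rot 1 (Q.FB w₀ + η) ∧ 1 / 2 ≤ ‖g v₀‖ ∧
      ∀ v ∈ frontier G, (Q.InX (Ψ v) ∧ ‖g v‖ ≤ 3) ∨ (Q.InT (Ψ v) ∧ ‖g v‖ ≤ 1 / 4) := by
  obtain ⟨v₀, hv₀⟩ := IsAlgClosed.exists_pow_nat_eq w₀ (n := 2) (by norm_num)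
  have hvn : ‖v₀‖ = Q.rad (13 / 16) := by
    have h1 : ‖v₀‖ ^ 2 = Q.rad (13 / 16) ^ 2 := by
      rw [← norm_pow, hv₀, hw, aux_rad_sq]
      congr 1
      norm_num
    exact (pow_left_inj₀ (norm_nonneg _) (aux_rad_pos Q _).le two_ne_zero).1 h1
  obtain ⟨hs1, hs2⟩ := startB Q v₀ hvn
  obtain ⟨hd1, hd2, hd3, hd4, hd5⟩ := domB Q
  set g0 : ℂ := Q.gB v₀ with hg0
  have hg0n : 3 / 4 ≤ ‖g0‖ := by
    have h1 : ‖(1 : ℂ)‖ ≤ ‖g0‖ + ‖g0 - 1‖ := by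
      have e : (1 : ℂ) = g0 - (g0 - 1) := by ring
      calc ‖(1 : ℂ)‖ = ‖g0 - (g0 - 1)‖ := by rw [← e]
        _ ≤ ‖g0‖ + ‖g0 - 1‖ := norm_sub_le _ _
    rw [norm_one] at h1
    linarith
  have hg0ne : g0 ≠ 0 := by
    intro h
    rw [h, norm_zero] at hg0n
    norm_num at hg0n
  set c : Fin (Q.M + 5) → ℂ := fun i => g0⁻¹ * (rot 1 (Q.FB w₀ + η) - Q.PsiB 0 v₀) i with hc
  have hcn : nrm c ≤ 1 / 2 ^ 18 := by
    rw [hc, nrm_smul]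
    have e1 : rot 1 (Q.FB w₀ + η) - Q.PsiB 0 v₀ =
        rot 1 η - (Q.PsiB 0 v₀ - rot 1 (Q.FB (v₀ ^ 2))) := by
      rw [hv₀, aux_rot_add]
      abel
    have h2 : nrm (rot 1 (Q.FB w₀ + η) - Q.PsiB 0 v₀) ≤ 1 / 2 ^ 20 + 1 / 2 ^ 40 := by
      rw [e1]
      refine (nrm_sub _ _).trans ?_
      rw [nrm_rot]
      exact add_le_add hη hs1
    have h3 : ‖g0⁻¹‖ ≤ 4 / 3 := by
      rw [norm_inv, inv_le_comm₀ (by linarith) (by norm_num)]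
      norm_num
      linarith
    calc ‖g0⁻¹‖ * nrm (rot 1 (Q.FB w₀ + η) - Q.PsiB 0 v₀) ≤ 4 / 3 * (1 / 2 ^ 20 + 1 / 2 ^ 40) :=
          mul_le_mul h3 h2 (nrm_nonneg _) (by norm_num)
      _ ≤ 1 / 2 ^ 18 := by norm_num
  refine ⟨Q.GB, Q.PsiB c, Q.gB, v₀, hd2, hd5 v₀ hvn, ?_, ?_, ?_, ?_⟩
  · intro v hv
    obtain ⟨h1, h2, h3⟩ := hd3 v hv
    exact diffB Q c v h1 h2 h3
  · funext i
    have e1 : Q.PsiB c v₀ i = Q.PsiB 0 v₀ i + g0 * c i := by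
      unfold Par.PsiB
      simp only [Pi.zero_apply, mul_zero, add_zero]
      rfl
    rw [e1, hc]
    simp only [Pi.sub_apply]
    rw [← mul_assoc, mul_inv_cancel₀ hg0ne, one_mul]
    ring
  · linarith
  · intro v hv
    obtain ⟨hv0, _, _⟩ := hd3 v (frontier_subset_closure hv)
    rcases hd4 v hv with h | h | h | h
    · right
      obtain ⟨h1, h2⟩ := exitB1 Q c hcn v h
      refine ⟨⟨0, v, Q.PsiB c v - Q.FA v, h1, Or.inl ⟨h, ?_⟩⟩, h2⟩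
      rw [aux_rot_zero]
      abel
    · right
      obtain ⟨h1, h2⟩ := exitB2 Q c hcn v h
      refine ⟨⟨1, v ^ 2, rot (-1) (Q.PsiB c v - rot 1 (Q.FA (v ^ 2))), ?_, Or.inl ⟨?_, ?_⟩⟩, h2⟩
      · rw [nrm_rot]; exact h1
      · rw [norm_pow, h, aux_rad_sq]
        congr 1
        norm_num
      · rw [aux_rot_add, rot_rot, add_neg_cancel, aux_rot_zero]
        abel
    · left
      exact holeB0 Q c hcn v hv0 h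
    · left
      exact holeB1 Q c hcn v hv0 h

end Pool.Agent.Helper112.KB.KpB

namespace Pool.Agent.Helper112.KB

theorem pieceB (Q : Par) (w₀ : ℂ) (η : Fin (Q.M + 5) → ℂ) (hw : ‖w₀‖ = Q.rad (13 / 8))
    (hη : nrm η ≤ 1 / 2 ^ 20) :
    ∃ (G : Set ℂ) (Ψ : ℂ → Fin (Q.M + 5) → ℂ) (g : ℂ → ℂ) (v₀ : ℂ), Bornology.IsBounded G ∧ v₀ ∈ G ∧
      (∀ v ∈ closure G, (∀ i, DifferentiableAt ℂ (fun z => Ψ z i) v) ∧ DifferentiableAt ℂ g v) ∧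
      Ψ v₀ = rot 1 (Q.FB w₀ + η) ∧ 1 / 2 ≤ ‖g v₀‖ ∧
      ∀ v ∈ frontier G, (Q.InX (Ψ v) ∧ ‖g v‖ ≤ 3) ∨ (Q.InT (Ψ v) ∧ ‖g v‖ ≤ 1 / 4) := by
  first
    | exact KpB.pieceB
    | (apply KpB.pieceB <;> assumption)

end Pool.Agent.Helper112.KB
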