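import Pool.Agent.Helper112.Kb.Defs
import Pool.Agent.Helper112.Kb.Kab
import Pool.Agent.Helper112.Kb.Knr
import Pool.Agent.Helper112.Kb.KpA
import Pool.Agent.Helper112.Kb.KpB

open Finset

namespace Pool.Agent.Helper112.KB.Khu

theorem hull_rot_sub {n : ℕ} (j : Fin n) (x y : Fin n → ℂ) : rot j x - rot j y = rot j (x - y) := rfl

theorem hull_InX_rot (Q : Par) (j : Fin (Q.M + 5)) (x : Fin (Q.M + 5) → ℂ) (h : Q.InX x) :
    Q.InX (rot j x) := by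
  obtain ⟨c, ⟨j', ω, hω, hc⟩, hn⟩ := h
  refine ⟨rot j c, ⟨j + j', ω, hω, ?_⟩, ?_⟩
  · rcases hc with rfl | rfl
    · left; rw [rot_rot]
    · right; rw [rot_rot]
  · rw [hull_rot_sub, nrm_rot]; exact hn

theorem hull_InT_rot (Q : Par) (j : Fin (Q.M + 5)) (x : Fin (Q.M + 5) → ℂ) (h : Q.InT x) :
    Q.InT (rot j x) := by
  obtain ⟨j', w, η, hη, hc⟩ := h
  refine ⟨j + j', w, η, hη, ?_⟩
  rcases hc with ⟨hw, rfl⟩ | ⟨hw, rfl⟩
  · left; exact ⟨hw, by rw [rot_rot]⟩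
  · right; exact ⟨hw, by rw [rot_rot]⟩

theorem hull_rad_le (Q : Par) (y : ℝ) (hy : 0 ≤ y) : Q.rad y ≤ 1 := by
  unfold Par.rad
  rw [Real.exp_le_one_iff]
  have : 0 ≤ y / 2 ^ Q.M := by positivity
  linarith

theorem hull_coord (Q : Par) (w : ℂ) (hw : ‖w‖ ≤ 1) (k l : ℕ) : ‖(Q.p k : ℂ) * w ^ l‖ ≤ 1 := by
  rw [norm_mul, norm_pow, Complex.norm_real, Real.norm_eq_abs, abs_of_nonneg (Q.pnn k)]
  have h1 := pow_le_one₀ (n := l) (norm_nonneg w) hw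
  have h2 := Q.ple k
  have h3 := Q.pnn k
  have h4 : 0 ≤ ‖w‖ ^ l := by positivity
  calc Q.p k * ‖w‖ ^ l ≤ 1 * 1 := mul_le_mul h2 h1 h4 zero_le_one
    _ = 1 := one_mul 1

/- TARGET -/
theorem hull (Q : Par) (P : MvPolynomial (Fin (Q.M + 5)) ℂ) (m : ℝ) (hm : 0 ≤ m)
    (hX : ∀ x, Q.InX x → ‖MvPolynomial.eval x P‖ ≤ m) :
    ∀ p, Q.InT p → ‖MvPolynomial.eval p P‖ ≤ m := by
  apply hull_abstract Q.InX Q.InT P m hm hX
  · obtain ⟨B, hB⟩ := (isCompact_closedBall (0 : Fin (Q.M + 5) → ℂ) 2).exists_bound_of_continuousOn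
      (MvPolynomial.continuous_eval P).continuousOn
    refine ⟨B, fun x hx => hB x ?_⟩
    rw [mem_closedBall_zero_iff, pi_norm_le_iff_of_nonneg (by norm_num)]
    intro i
    obtain ⟨j, w, η, hη, hc⟩ := hx
    have h1 : ‖η (i - j)‖ ≤ 1 := by
      refine (norm_le_nrm η (i - j)).trans (hη.trans ?_)
      norm_num
    rcases hc with ⟨hw, rfl⟩ | ⟨hw, rfl⟩
    · have hw1 : ‖w‖ ≤ 1 := by rw [hw]; exact hull_rad_le Q _ (by norm_num)
      have h2 : ‖Q.FA w (i - j)‖ ≤ 1 := hull_coord Q w hw1 _ _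
      have h3 : rot j (Q.FA w + η) i = Q.FA w (i - j) + η (i - j) := rfl
      rw [h3]
      refine (norm_add_le _ _).trans ?_
      linarith
    · have hw1 : ‖w‖ ≤ 1 := by rw [hw]; exact hull_rad_le Q _ (by norm_num)
      have h2 : ‖Q.FB w (i - j)‖ ≤ 1 := hull_coord Q w hw1 _ _
      have h3 : rot j (Q.FB w + η) i = Q.FB w (i - j) + η (i - j) := rfl
      rw [h3]
      refine (norm_add_le _ _).trans ?_
      linarith
  · rintro p ⟨j, w, η, hη, hc⟩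
    rcases hc with ⟨hw, rfl⟩ | ⟨hw, rfl⟩
    · obtain ⟨G, Ψ, g, v₀, hG, hv₀, hd, h1, h2, h3⟩ := pieceA Q w η hw hη
      refine ⟨G, fun v => rot j (Ψ v), g, v₀, hG, hv₀, ?_, ?_, h2, ?_⟩
      · intro v hv
        exact ⟨fun i => (hd v hv).1 (i - j), (hd v hv).2⟩
      · show rot j (Ψ v₀) = _
        rw [h1]
      · intro v hv
        rcases h3 v hv with ⟨h4, h5⟩ | ⟨h4, h5⟩
        · exact Or.inl ⟨hull_InX_rot Q j _ h4, h5⟩
        · exact Or.inr ⟨hull_InT_rot Q j _ h4, h5⟩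
    · obtain ⟨G, Ψ, g, v₀, hG, hv₀, hd, h1, h2, h3⟩ := pieceB Q w η hw hη
      refine ⟨G, fun v => rot (j - 1) (Ψ v), g, v₀, hG, hv₀, ?_, ?_, h2, ?_⟩
      · intro v hv
        exact ⟨fun i => (hd v hv).1 (i - (j - 1)), (hd v hv).2⟩
      · show rot (j - 1) (Ψ v₀) = _
        rw [h1, rot_rot, sub_add_cancel]
      · intro v hv
        rcases h3 v hv with ⟨h4, h5⟩ | ⟨h4, h5⟩
        · exact Or.inl ⟨hull_InX_rot Q (j - 1) _ h4, h5⟩
        · exact Or.inr ⟨hull_InT_rot Q (j - 1) _ h4, h5⟩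

end Pool.Agent.Helper112.KB.Khu

namespace Pool.Agent.Helper112.KB

theorem hull (Q : Par) (P : MvPolynomial (Fin (Q.M + 5)) ℂ) (m : ℝ) (hm : 0 ≤ m)
    (hX : ∀ x, Q.InX x → ‖MvPolynomial.eval x P‖ ≤ m) :
    ∀ p, Q.InT p → ‖MvPolynomial.eval p P‖ ≤ m := by
  first
    | exact Khu.hull
    | (apply Khu.hull <;> assumption)

end Pool.Agent.Helper112.KB
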