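import Pool.Agent.Helper112.Kb.Defs

open Finset

namespace Pool.Agent.Helper112.KB.Krt

/- TARGET -/
theorem root_lb (y : ℂ) (hy : y ^ 4096 = 1) (h1 : y ≠ 1) : 153 / 100000 ≤ ‖y - 1‖ := by
  have hy0 : y ≠ 0 := by
    rintro rfl
    norm_num at hy
  have hmem : (Units.mk0 y hy0) ∈ rootsOfUnity 4096 ℂ := by
    rw [mem_rootsOfUnity]
    ext
    simpa using hy
  rw [Complex.mem_rootsOfUnity] at hmem
  obtain ⟨k, hk, hky⟩ := hmem
  rw [Units.val_mk0] at hky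
  have hk0 : 0 < k := by
    rcases Nat.eq_zero_or_pos k with h | h
    · exfalso
      apply h1
      rw [← hky, h]
      simp
    · exact h
  have e1 : ‖y - 1‖ = ‖2 * Real.sin ((2 * Real.pi * (k / 4096)) / 2)‖ := by
    rw [← Complex.norm_exp_I_mul_ofReal_sub_one, ← hky]
    congr 3
    push_cast
    ring
  have e2 : (2 * Real.pi * ((k : ℝ) / 4096)) / 2 = Real.pi * k / 4096 := by ring
  rw [e1, e2, Real.norm_eq_abs]
  have hpi := Real.pi_gt_d4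
  have hpi2 := Real.pi_lt_d4
  have hk1 : (1 : ℝ) ≤ k := by exact_mod_cast hk0
  have hk2 : (k : ℝ) ≤ 4095 := by
    have : k ≤ 4095 := by omega
    exact_mod_cast this
  have hx0 : 0 < Real.pi / 4096 := by positivity
  have key : Real.sin (Real.pi / 4096) ≤ Real.sin (Real.pi * k / 4096) := by
    rcases le_or_gt (k : ℝ) 2048 with h | h
    · apply Real.sin_le_sin_of_le_of_le_pi_div_two
      · linarith
      · rw [div_le_div_iff₀ (by norm_num) (by norm_num)]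
        nlinarith
      · rw [div_le_div_iff_of_pos_right (by norm_num)]
        nlinarith
    · have e3 : Real.sin (Real.pi * k / 4096) = Real.sin (Real.pi - Real.pi * k / 4096) :=
        (Real.sin_pi_sub _).symm
      rw [e3]
      have e4 : Real.pi - Real.pi * k / 4096 = Real.pi * (4096 - k) / 4096 := by ring
      rw [e4]
      apply Real.sin_le_sin_of_le_of_le_pi_div_two
      · linarith
      · rw [div_le_div_iff₀ (by norm_num) (by norm_num)]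
        nlinarith
      · rw [div_le_div_iff_of_pos_right (by norm_num)]
        nlinarith
  have hs := Real.sin_gt_sub_cube hx0
  have hx1 : (3.1415 : ℝ) / 4096 < Real.pi / 4096 := by
    rw [div_lt_div_iff_of_pos_right (by norm_num)]; linarith
  have hx2 : Real.pi / 4096 < (3.1416 : ℝ) / 4096 := by
    rw [div_lt_div_iff_of_pos_right (by norm_num)]; linarith
  have hx3 : (Real.pi / 4096) ^ 3 ≤ ((3.1416 : ℝ) / 4096) ^ 3 :=
    pow_le_pow_left₀ hx0.le hx2.le 3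
  refine le_trans ?_ (le_abs_self _)
  have : (0.0007669 : ℝ) ≤ Real.sin (Real.pi / 4096) := by
    have e5 : ((3.1416 : ℝ) / 4096) ^ 3 ≤ 1 / 10 ^ 8 := by norm_num
    have e6 : (0.00076696 : ℝ) ≤ (3.1415 : ℝ) / 4096 := by norm_num
    norm_num at e5 e6 ⊢
    linarith
  linarith

/- TARGET -/
theorem chi_far (M : ℕ) (hM : 2 ≤ M) (χ : ℂ) (hχ : χ ^ (2 ^ (M + 10)) = 1) (h1 : χ ^ (2 ^ M) ≠ 1) :
    (31 / 12800 : ℝ) ^ 2 < 53 / 100 * ‖χ ^ (2 ^ (M - 2)) - 1‖ ^ 2 +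
      28 / 100 * ‖χ ^ (2 ^ (M - 1)) - 1‖ ^ 2 + 8 / 100 * ‖χ ^ (2 ^ M) - 1‖ ^ 2 := by
  obtain ⟨m, rfl⟩ : ∃ m, M = m + 2 := ⟨M - 2, by omega⟩
  have e1 : χ ^ (2 ^ (m + 2 - 1)) = (χ ^ (2 ^ m)) ^ 2 := by
    rw [← pow_mul]
    congr 1
  have e2 : χ ^ (2 ^ (m + 2)) = (χ ^ (2 ^ m)) ^ 4 := by
    rw [← pow_mul]
    congr 1
    rw [pow_add]
    norm_num
  have e3 : (χ ^ (2 ^ m)) ^ 4096 = 1 := by
    rw [← pow_mul, ← hχ]
    congr 1
    rw [pow_add, pow_add]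
    norm_num [mul_assoc]
  have e0 : m + 2 - 2 = m := by omega
  rw [e0, e1, e2]
  rw [e2] at h1
  set y := χ ^ (2 ^ m) with hy
  have hy1 : y ≠ 1 := by
    intro h
    apply h1
    rw [h]; norm_num
  have hd := root_lb y e3 hy1
  set d := ‖y - 1‖ with hdd
  by_cases hcase : 2 / 100 ≤ d
  · have h2 : 0 ≤ 28 / 100 * ‖y ^ 2 - 1‖ ^ 2 := by positivity
    have h3 : 0 ≤ 8 / 100 * ‖y ^ 4 - 1‖ ^ 2 := by positivity
    have h4 : (2 / 100 : ℝ) ^ 2 ≤ d ^ 2 := pow_le_pow_left₀ (by norm_num) hcase 2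
    norm_num at h4 ⊢
    linarith
  · push Not at hcase
    have f1 : ‖y ^ 2 - 1‖ = d * ‖y + 1‖ := by
      rw [hdd, ← norm_mul]
      congr 1
      ring
    have f2 : ‖y ^ 4 - 1‖ = ‖y ^ 2 - 1‖ * ‖y ^ 2 + 1‖ := by
      rw [← norm_mul]
      congr 1
      ring
    have f3 : 2 - d ≤ ‖y + 1‖ := by
      have := norm_sub_norm_le (2 : ℂ) (-(y - 1))
      have h5 : (2 : ℂ) - -(y - 1) = y + 1 := by ring
      rw [h5, norm_neg] at this
      have h6 : ‖(2 : ℂ)‖ = 2 := by norm_num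
      rw [h6] at this
      exact this
    have f4 : ‖y + 1‖ ≤ 2 + d := by
      have := norm_add_le (2 : ℂ) (y - 1)
      have h5 : (2 : ℂ) + (y - 1) = y + 1 := by ring
      rw [h5] at this
      have h6 : ‖(2 : ℂ)‖ = 2 := by norm_num
      rw [h6] at this
      exact this
    have f5 : 2 - ‖y ^ 2 - 1‖ ≤ ‖y ^ 2 + 1‖ := by
      have := norm_sub_norm_le (2 : ℂ) (-(y ^ 2 - 1))
      have h5 : (2 : ℂ) - -(y ^ 2 - 1) = y ^ 2 + 1 := by ring
      rw [h5, norm_neg] at this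
      have h6 : ‖(2 : ℂ)‖ = 2 := by norm_num
      rw [h6] at this
      exact this
    have hd0 : 0 ≤ d := by linarith
    have g1 : 198 / 100 * d ≤ ‖y ^ 2 - 1‖ := by
      rw [f1]; nlinarith
    have g2 : ‖y ^ 2 - 1‖ ≤ 5 / 100 := by
      rw [f1]; nlinarith
    have g3 : 198 / 100 * d * (195 / 100) ≤ ‖y ^ 4 - 1‖ := by
      rw [f2]
      exact mul_le_mul g1 (by linarith) (by norm_num) (norm_nonneg _)
    have k1 : (198 / 100 * d) ^ 2 ≤ ‖y ^ 2 - 1‖ ^ 2 := pow_le_pow_left₀ (by positivity) g1 2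
    have k2 : (198 / 100 * d * (195 / 100)) ^ 2 ≤ ‖y ^ 4 - 1‖ ^ 2 :=
      pow_le_pow_left₀ (by positivity) g3 2
    have k3 : (153 / 100000 : ℝ) ^ 2 ≤ d ^ 2 := pow_le_pow_left₀ (by norm_num) hd 2
    have k1' : 39204 / 10000 * d ^ 2 ≤ ‖y ^ 2 - 1‖ ^ 2 := by
      refine le_trans (le_of_eq ?_) k1
      ring
    have k2' : 14 * d ^ 2 ≤ ‖y ^ 4 - 1‖ ^ 2 := by
      refine le_trans ?_ k2
      have : (198 / 100 * d * (195 / 100)) ^ 2 = (198 / 100 * (195 / 100)) ^ 2 * d ^ 2 := by ring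
      rw [this]
      exact mul_le_mul_of_nonneg_right (by norm_num) (by positivity)
    norm_num at k3 ⊢
    linarith

/- TARGET -/
theorem chi_near (M : ℕ) (χ : ℂ) (h1 : χ ^ (2 ^ M) = 1) (h : χ ≠ 1) :
    ∃ e, e < M ∧ χ ^ (2 ^ e) = -1 := by
  classical
  have hex : ∃ e, χ ^ (2 ^ e) = 1 := ⟨M, h1⟩
  set e' := Nat.find hex with he'
  have hspec : χ ^ (2 ^ e') = 1 := Nat.find_spec hex
  have hpos : e' ≠ 0 := by
    intro h0
    rw [h0] at hspec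
    apply h
    simpa using hspec
  obtain ⟨e, he⟩ := Nat.exists_eq_succ_of_ne_zero hpos
  have hle : e' ≤ M := Nat.find_min' hex h1
  refine ⟨e, by omega, ?_⟩
  have h2 : (χ ^ (2 ^ e)) ^ 2 = 1 := by
    rw [← pow_mul, ← pow_succ]
    rw [he] at hspec
    exact hspec
  have h3 : χ ^ (2 ^ e) ≠ 1 := Nat.find_min hex (by omega)
  have h4 : (χ ^ (2 ^ e) - 1) * (χ ^ (2 ^ e) + 1) = 0 := by linear_combination h2
  rcases mul_eq_zero.1 h4 with h5 | h5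
  · exact absurd (sub_eq_zero.1 h5) h3
  · exact eq_neg_of_add_eq_zero_left h5

end Pool.Agent.Helper112.KB.Krt

namespace Pool.Agent.Helper112.KB

theorem root_lb (y : ℂ) (hy : y ^ 4096 = 1) (h1 : y ≠ 1) : 153 / 100000 ≤ ‖y - 1‖ := by
  first
    | exact Krt.root_lb
    | (apply Krt.root_lb <;> assumption)

theorem chi_far (M : ℕ) (hM : 2 ≤ M) (χ : ℂ) (hχ : χ ^ (2 ^ (M + 10)) = 1) (h1 : χ ^ (2 ^ M) ≠ 1) :
    (31 / 12800 : ℝ) ^ 2 < 53 / 100 * ‖χ ^ (2 ^ (M - 2)) - 1‖ ^ 2 +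
      28 / 100 * ‖χ ^ (2 ^ (M - 1)) - 1‖ ^ 2 + 8 / 100 * ‖χ ^ (2 ^ M) - 1‖ ^ 2 := by
  first
    | exact Krt.chi_far
    | (apply Krt.chi_far <;> assumption)

theorem chi_near (M : ℕ) (χ : ℂ) (h1 : χ ^ (2 ^ M) = 1) (h : χ ≠ 1) :
    ∃ e, e < M ∧ χ ^ (2 ^ e) = -1 := by
  first
    | exact Krt.chi_near
    | (apply Krt.chi_near <;> assumption)

end Pool.Agent.Helper112.KB
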