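import Pool.Agent.Helper112.Kb.Defs
import Pool.Agent.Helper112.Kb.Knr
import Pool.Agent.Helper112.Kb.Krt

open Finset

namespace Pool.Agent.Helper112.KB.Ks1

theorem exp_aux6580 : (0.535 : ℝ) ≤ Real.exp (-0.625) := by
  have h := Real.exp_bound' (x := 0.625) (by norm_num) (by norm_num) (n := 5) (by norm_num)
  have h2 : Real.exp 0.625 ≤ 1 / 0.535 := by
    refine h.trans ?_
    norm_num [Finset.sum_range_succ, Nat.factorial]
  rw [Real.exp_neg]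
  rw [le_inv_comm₀ (by norm_num) (Real.exp_pos _)]
  rw [← one_div]
  exact h2

theorem pmono_aux6580 (Q : Par) : ∀ k, k < Q.M + 4 → Q.p 1 ≤ Q.p (k + 1) := by
  intro k
  induction k with
  | zero => intro _; exact le_rfl
  | succ k ih =>
    intro hk
    exact (ih (by omega)).trans (Q.pmono (k + 1) (by omega) hk)

/- TARGET -/
theorem sep1 (Q : Par) (ω ω' : ℂ) (h : ω ^ Q.N = 1) (h' : ω' ^ Q.N = 1) (hne : Q.C1 ω ≠ Q.C1 ω') :
    31 / 12800 < nrm (Q.C1 ω - Q.C1 ω') := by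
  obtain ⟨m, hm⟩ : ∃ m, Q.M = m + 2 := ⟨Q.M - 2, by have := Q.hM; omega⟩
  have hJM := Q.hM
  have hJ1 := Q.hJ
  have hN0 : Q.N ≠ 0 := by unfold Par.N; positivity
  have hω : ‖ω‖ = 1 := Complex.norm_eq_one_of_pow_eq_one h hN0
  have hω0 : ω ≠ 0 := by
    intro h0
    rw [h0, norm_zero] at hω
    norm_num at hω
  obtain ⟨χ, hχ⟩ : ∃ χ : ℂ, χ = ω' / ω := ⟨_, rfl⟩
  have hωχ : ω' = χ * ω := by rw [hχ, div_mul_cancel₀ _ hω0]
  have hχN : χ ^ Q.N = 1 := by rw [hχ, div_pow, h, h', div_one]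
  have hslot : ∀ i : Fin (Q.M + 5), ‖(Q.C1 ω - Q.C1 ω') i‖ =
      Q.p ((i : ℕ) + 1) * Real.exp (-(5 / 4 * (2 ^ (i : ℕ) / 2 ^ Q.M))) *
        ‖χ ^ (2 ^ (i : ℕ)) - 1‖ := by
    intro i
    have e1 : (Q.C1 ω - Q.C1 ω') i = (Q.p ((i : ℕ) + 1) : ℂ) *
        ((Q.rad (5 / 4) ^ (2 ^ (i : ℕ)) : ℝ) : ℂ) *
          (-(ω ^ (2 ^ (i : ℕ)) * (χ ^ (2 ^ (i : ℕ)) - 1))) := by
      show (Q.p ((i : ℕ) + 1) : ℂ) * (ω * (Q.rad (5 / 4) : ℂ)) ^ (2 ^ (i : ℕ)) -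
        (Q.p ((i : ℕ) + 1) : ℂ) * (ω' * (Q.rad (5 / 4) : ℂ)) ^ (2 ^ (i : ℕ)) = _
      rw [hωχ, mul_pow, mul_pow, mul_pow]
      push_cast
      ring
    have e2 : 0 ≤ Q.rad (5 / 4) ^ (2 ^ (i : ℕ)) := by
      unfold Par.rad
      positivity
    rw [e1, norm_mul, norm_mul, norm_neg, norm_mul, norm_pow, hω, one_pow, one_mul,
      Complex.norm_real, Complex.norm_real, Real.norm_of_nonneg (Q.pnn _), Real.norm_of_nonneg e2]
    congr 2
    unfold Par.rad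
    rw [← Real.exp_nat_mul]
    congr 1
    push_cast
    ring
  by_cases hcase : χ ^ (2 ^ Q.M) = 1
  · have hχ1 : χ ≠ 1 := by
      intro h1
      apply hne
      rw [hωχ, h1, one_mul]
    obtain ⟨e, he, hχe⟩ := chi_near Q.M χ hcase hχ1
    have hsl := hslot ⟨e, by omega⟩
    simp only at hsl
    rw [hχe] at hsl
    have h2 : ‖(-1 : ℂ) - 1‖ = 2 := by
      rw [show (-1 : ℂ) - 1 = -2 by norm_num, norm_neg]
      norm_num
    rw [h2] at hsl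
    refine lt_of_lt_of_le ?_ (norm_le_nrm (Q.C1 ω - Q.C1 ω') ⟨e, by omega⟩)
    rw [hsl]
    rcases Nat.lt_or_ge e Q.J with heJ | heJ
    · have hp : 13 / 10240 ≤ Q.p (e + 1) := by
        rw [← Q.p1]
        exact pmono_aux6580 Q e (by omega)
      obtain ⟨t, ht⟩ : ∃ t, Q.M = e + 13 + t := ⟨Q.M - e - 13, by omega⟩
      have hs : (2 : ℝ) ^ e / 2 ^ Q.M ≤ 1 / 2 ^ 13 := by
        rw [ht, pow_add, pow_add, div_le_div_iff₀ (by positivity) (by positivity)]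
        have h3 : (1 : ℝ) ≤ 2 ^ t := one_le_pow₀ (by norm_num)
        have h4 : (0 : ℝ) < 2 ^ e := by positivity
        nlinarith
      have hexp : 1 - 5 / 4 * (1 / 2 ^ 13) ≤ Real.exp (-(5 / 4 * ((2 : ℝ) ^ e / 2 ^ Q.M))) := by
        have h3 := Real.add_one_le_exp (-(5 / 4 * ((2 : ℝ) ^ e / 2 ^ Q.M)))
        linarith
      have h5 : (13 / 10240 : ℝ) * (1 - 5 / 4 * (1 / 2 ^ 13)) ≤
          Q.p (e + 1) * Real.exp (-(5 / 4 * ((2 : ℝ) ^ e / 2 ^ Q.M))) :=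
        mul_le_mul hp hexp (by norm_num) (Q.pnn _)
      have h6 : (31 / 12800 : ℝ) < (13 / 10240 : ℝ) * (1 - 5 / 4 * (1 / 2 ^ 13)) * 2 := by
        norm_num
      linarith
    · have hp : Q.p (e + 1) = 1 := Q.pone (e + 1) (by omega) (by omega)
      rw [hp]
      obtain ⟨t, ht⟩ : ∃ t, Q.M = e + 1 + t := ⟨Q.M - e - 1, by omega⟩
      have hs : (2 : ℝ) ^ e / 2 ^ Q.M ≤ 1 / 2 := by
        rw [ht, pow_add, pow_add, div_le_div_iff₀ (by positivity) (by positivity)]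
        have h3 : (1 : ℝ) ≤ 2 ^ t := one_le_pow₀ (by norm_num)
        have h4 : (0 : ℝ) < 2 ^ e := by positivity
        nlinarith
      have hexp : 0.535 ≤ Real.exp (-(5 / 4 * ((2 : ℝ) ^ e / 2 ^ Q.M))) := by
        refine exp_aux6580.trans (Real.exp_le_exp.2 ?_)
        linarith
      linarith
  · have hfar := chi_far Q.M (by omega) χ hχN hcase
    have hsub : ∑ i ∈ ({⟨m, by omega⟩, ⟨m + 1, by omega⟩, ⟨m + 2, by omega⟩} :
        Finset (Fin (Q.M + 5))), ‖(Q.C1 ω - Q.C1 ω') i‖ ^ 2 ≤ nrm (Q.C1 ω - Q.C1 ω') ^ 2 := by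
      rw [nrm_sq]
      exact Finset.sum_le_sum_of_subset_of_nonneg (Finset.subset_univ _)
        (fun i _ _ => by positivity)
    rw [Finset.sum_insert (by simp), Finset.sum_insert (by simp), Finset.sum_singleton,
      hslot, hslot, hslot] at hsub
    simp only at hsub
    rw [Q.pone (m + 1) (by omega) (by omega), Q.pone (m + 1 + 1) (by omega) (by omega),
      Q.pone (m + 2 + 1) (by omega) (by omega)] at hsub
    have hM2 : Q.M - 2 = m := by omega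
    have hM1 : Q.M - 1 = m + 1 := by omega
    rw [hM2, hM1] at hfar
    have s0 : (5 / 4 * ((2 : ℝ) ^ m / 2 ^ Q.M)) = 5 / 16 := by
      rw [hm, pow_add]
      field_simp
      norm_num
    have s1 : (5 / 4 * ((2 : ℝ) ^ (m + 1) / 2 ^ Q.M)) = 5 / 8 := by
      rw [hm, pow_add, pow_add]
      field_simp
      norm_num
    have s2 : (5 / 4 * ((2 : ℝ) ^ (m + 2) / 2 ^ Q.M)) = 5 / 4 := by
      rw [hm, div_self (by positivity)]
      norm_num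
    rw [s0, s1, s2, ← hm] at hsub
    obtain ⟨a, ha⟩ : ∃ a : ℝ, a = Real.exp (-0.625) := ⟨_, rfl⟩
    have ha1 : 0.535 ≤ a := by rw [ha]; exact exp_aux6580
    have q0 : Real.exp (-(5 / 16 : ℝ)) ^ 2 = a := by
      rw [ha, ← Real.exp_nat_mul]; norm_num
    have q1 : Real.exp (-(5 / 8 : ℝ)) = a := by rw [ha]; norm_num
    have q2 : Real.exp (-(5 / 4 : ℝ)) = a ^ 2 := by
      rw [ha, ← Real.exp_nat_mul]; norm_num
    rw [q1, q2] at hsub
    have q3 : (1 * Real.exp (-(5 / 16 : ℝ)) * ‖χ ^ 2 ^ m - 1‖) ^ 2 =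
        a * ‖χ ^ 2 ^ m - 1‖ ^ 2 := by rw [← q0]; ring
    rw [q3] at hsub
    have hfin : (31 / 12800 : ℝ) ^ 2 < nrm (Q.C1 ω - Q.C1 ω') ^ 2 := by
      refine lt_of_lt_of_le ?_ hsub
      refine lt_of_lt_of_le hfar ?_
      have r1 : 53 / 100 * ‖χ ^ 2 ^ m - 1‖ ^ 2 ≤ a * ‖χ ^ 2 ^ m - 1‖ ^ 2 :=
        mul_le_mul_of_nonneg_right (by linarith) (by positivity)
      have r2 : 28 / 100 * ‖χ ^ 2 ^ (m + 1) - 1‖ ^ 2 ≤ a ^ 2 * ‖χ ^ 2 ^ (m + 1) - 1‖ ^ 2 :=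
        mul_le_mul_of_nonneg_right (by nlinarith) (by positivity)
      have r3 : 8 / 100 * ‖χ ^ 2 ^ Q.M - 1‖ ^ 2 ≤ a ^ 4 * ‖χ ^ 2 ^ Q.M - 1‖ ^ 2 := by
        apply mul_le_mul_of_nonneg_right _ (by positivity)
        have : (0.535 : ℝ) ^ 4 ≤ a ^ 4 := pow_le_pow_left₀ (by norm_num) ha1 4
        norm_num at this ⊢
        linarith
      nlinarith [r1, r2, r3]
    exact lt_of_pow_lt_pow_left₀ 2 (nrm_nonneg _) hfin

end Pool.Agent.Helper112.KB.Ks1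

namespace Pool.Agent.Helper112.KB

theorem sep1 (Q : Par) (ω ω' : ℂ) (h : ω ^ Q.N = 1) (h' : ω' ^ Q.N = 1) (hne : Q.C1 ω ≠ Q.C1 ω') :
    31 / 12800 < nrm (Q.C1 ω - Q.C1 ω') := by
  first
    | exact Ks1.sep1
    | (apply Ks1.sep1 <;> assumption)

end Pool.Agent.Helper112.KB
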