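import Pool.Agent.Helper112.Kb.Defs
import Pool.Agent.Helper112.Kb.Kcr
import Pool.Agent.Helper112.Kb.Knr
import Pool.Agent.Helper112.Kb.Ks0
import Pool.Agent.Helper112.Kb.Ks1

open Finset

namespace Pool.Agent.Helper112.KB.Kse

theorem s_le_kb (M k d : ℕ) (h : k + d ≤ M) : (2:ℝ) ^ k / 2 ^ M ≤ 1 / 2 ^ d := by
  rw [div_le_div_iff₀ (by positivity) (by positivity), one_mul, ← pow_add]
  exact pow_le_pow_right₀ (by norm_num) h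

theorem s_ge_kb (M k d : ℕ) (h : M + d ≤ k) : (2:ℝ) ^ d ≤ (2:ℝ) ^ k / 2 ^ M := by
  rw [le_div_iff₀ (by positivity), ← pow_add]
  exact pow_le_pow_right₀ (by norm_num) (by omega)

theorem s_M_kb (M : ℕ) : (2:ℝ) ^ M / 2 ^ M = 1 := div_self (by positivity)

theorem e18_kb : 7 / 8 ≤ Real.exp (-(1/8)) ∧ Real.exp (-(1/8)) ≤ 8 / 9 := by
  constructor
  · have := Real.add_one_le_exp (-(1/8) : ℝ)
    linarith
  · have h1 := Real.add_one_le_exp (1/8 : ℝ)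
    rw [Real.exp_neg, inv_eq_one_div, div_le_iff₀ (Real.exp_pos _)]
    linarith

theorem e14_kb : 49 / 64 ≤ Real.exp (-(1/4)) ∧ Real.exp (-(1/4)) ≤ 4 / 5 := by
  constructor
  · have h1 := e18_kb.1
    have h2 : Real.exp (-(1/4)) = Real.exp (-(1/8)) * Real.exp (-(1/8)) := by
      rw [← Real.exp_add]; norm_num
    rw [h2]; nlinarith
  · have h1 := Real.add_one_le_exp (1/4 : ℝ)
    rw [Real.exp_neg, inv_eq_one_div, div_le_iff₀ (Real.exp_pos _)]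
    linarith

theorem e1_kb : 0.3678 ≤ Real.exp (-1) ∧ Real.exp (-1) ≤ 0.3679 := by
  have h1 := Real.exp_neg_one_gt_d9
  have h2 := Real.exp_neg_one_lt_d9
  constructor <;> linarith

theorem e54_kb : 0.28 ≤ Real.exp (-(5/4)) ∧ Real.exp (-(5/4)) ≤ 0.2944 := by
  have h2 : Real.exp (-(5/4)) = Real.exp (-1) * Real.exp (-(1/4)) := by
    rw [← Real.exp_add]; norm_num
  have h1 := e1_kb
  have h3 := e14_kb
  rw [h2]
  constructor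
  · nlinarith [h1.1, h3.1]
  · nlinarith [h1.2, h3.2, h1.1, h3.1]

theorem e98_kb : 0.3218 ≤ Real.exp (-(9/8)) ∧ Real.exp (-(9/8)) ≤ 0.3271 := by
  have h2 : Real.exp (-(9/8)) = Real.exp (-1) * Real.exp (-(1/8)) := by
    rw [← Real.exp_add]; norm_num
  have h1 := e1_kb
  have h3 := e18_kb
  rw [h2]
  constructor
  · nlinarith [h1.1, h3.1]
  · nlinarith [h1.2, h3.2, h1.1, h3.1]

theorem e2_kb : Real.exp (-2) ≤ 136 / 1000 := by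
  have h2 : Real.exp (-2) = Real.exp (-1) * Real.exp (-1) := by
    rw [← Real.exp_add]; norm_num
  rw [h2]
  nlinarith [e1_kb.1, e1_kb.2]

theorem e58_kb : 1 / 2 < Real.exp (-(5/8)) := by
  have h2 : Real.exp (-(5/8)) = Real.exp (-1) * Real.exp (3/8) := by
    rw [← Real.exp_add]; norm_num
  have h1 := Real.add_one_le_exp (3/8 : ℝ)
  rw [h2]
  nlinarith [e1_kb.1]

/-- admissible as first sequence -/
def IsA_kb (M : ℕ) (a : Fin (M + 5) → ℝ) : Prop :=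
  28 / 100 ≤ a ⟨M, by omega⟩ ∧ a ⟨M, by omega⟩ ≤ 37 / 100 ∧ a ⟨M + 1, by omega⟩ ≤ 136 / 1000

/-- admissible as second sequence -/
def IsB_kb (M J : ℕ) (b : Fin (M + 5) → ℝ) : Prop :=
  (∀ (k : ℕ) (hk : k < M), J ≤ k → 1 / 2 < b ⟨k, by omega⟩) ∧
  (∀ (k : ℕ) (hk : k < M), k < J → 99 / 100 * b ⟨k, by omega⟩ ≤ b ⟨k + 1, by omega⟩) ∧
  (∀ (k : ℕ) (hk : k < M + 5), M < k → b ⟨k, hk⟩ ≤ 136 / 1000)

theorem A0_kb (Q : Par) (ω : ℂ) (h : ‖ω‖ = 1) :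
    IsA_kb Q.M (fun i => ‖Q.C0 ω i‖) ∧ IsB_kb Q.M Q.J (fun i => ‖Q.C0 ω i‖) ∧
      ‖Q.C0 ω ⟨Q.M, by omega⟩‖ = Real.exp (-1) := by
  have hJ := Q.hJ
  have hM := Q.hM
  have hsM := s_M_kb Q.M
  have hval : ‖Q.C0 ω ⟨Q.M, by omega⟩‖ = Real.exp (-1) := by
    rw [norm_C0 Q ω h]
    simp only
    rw [if_neg (by omega), Q.pone Q.M (by omega) (by omega), hsM, one_mul]
  have hexp2 : ∀ k, Q.M < k → Q.p k * Real.exp (-((2:ℝ) ^ k / 2 ^ Q.M)) ≤ 136 / 1000 := by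
    intro k hk
    have h1 := s_ge_kb Q.M k 1 (by omega)
    have h2 : Real.exp (-((2:ℝ) ^ k / 2 ^ Q.M)) ≤ Real.exp (-2) :=
      Real.exp_le_exp.2 (by linarith)
    have h3 := e2_kb
    have h4 := Q.ple k
    have h5 := Q.pnn k
    have h6 := Real.exp_pos (-((2:ℝ) ^ k / 2 ^ Q.M))
    nlinarith
  refine ⟨⟨?_, ?_, ?_⟩, ⟨?_, ?_, ?_⟩, hval⟩
  · show _ ≤ ‖Q.C0 ω ⟨Q.M, by omega⟩‖
    rw [hval]; linarith [e1_kb.1]
  · show ‖Q.C0 ω ⟨Q.M, by omega⟩‖ ≤ _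
    rw [hval]; linarith [e1_kb.2]
  · show ‖Q.C0 ω ⟨Q.M + 1, by omega⟩‖ ≤ _
    rw [norm_C0 Q ω h]
    simp only
    rw [if_neg (by omega)]
    exact hexp2 _ (by omega)
  · intro k hk hJk
    show _ < ‖Q.C0 ω ⟨k, by omega⟩‖
    rw [norm_C0 Q ω h]
    simp only
    rw [if_neg (by omega), Q.pone k hJk (by omega), one_mul]
    have h1 := s_le_kb Q.M k 1 (by omega)
    refine lt_of_lt_of_le e58_kb (Real.exp_le_exp.2 ?_)
    linarith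
  · intro k hk hkJ
    show 99 / 100 * ‖Q.C0 ω ⟨k, by omega⟩‖ ≤ ‖Q.C0 ω ⟨k + 1, by omega⟩‖
    rw [norm_C0 Q ω h, norm_C0 Q ω h]
    simp only
    by_cases hk0 : k = 0
    · rw [if_pos hk0, mul_zero, if_neg (by omega)]
      exact mul_nonneg (Q.pnn _) (Real.exp_pos _).le
    · rw [if_neg hk0, if_neg (by omega)]
      have h1 := s_le_kb Q.M k 12 (by omega)
      have h2 := Q.pmono k (by omega) (by omega)
      have h3 : (2:ℝ) ^ (k+1) / 2 ^ Q.M = (2:ℝ) ^ k / 2 ^ Q.M + (2:ℝ) ^ k / 2 ^ Q.M := by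
        rw [pow_succ]; ring
      rw [h3, neg_add, Real.exp_add]
      have h4 := Real.add_one_le_exp (-((2:ℝ) ^ k / 2 ^ Q.M))
      have h5 := Real.exp_pos (-((2:ℝ) ^ k / 2 ^ Q.M))
      have h6 : 99 / 100 ≤ Real.exp (-((2:ℝ) ^ k / 2 ^ Q.M)) := by
        norm_num at h1
        linarith
      have h7 := Q.pnn k
      generalize Real.exp (-((2:ℝ) ^ k / 2 ^ Q.M)) = e at *
      calc 99 / 100 * (Q.p k * e) = Q.p k * (99 / 100 * e) := by ring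
        _ ≤ Q.p k * (e * e) := by
          refine mul_le_mul_of_nonneg_left ?_ h7
          exact mul_le_mul_of_nonneg_right h6 h5.le
        _ ≤ Q.p (k + 1) * (e * e) := mul_le_mul_of_nonneg_right h2 (by positivity)
  · intro k hk hMk
    show ‖Q.C0 ω ⟨k, hk⟩‖ ≤ _
    rw [norm_C0 Q ω h]
    simp only
    rw [if_neg (by omega)]
    exact hexp2 _ hMk

theorem A1_kb (Q : Par) (ω : ℂ) (h : ‖ω‖ = 1) :
    IsA_kb Q.M (fun i => ‖Q.C1 ω i‖) ∧ IsB_kb Q.M Q.J (fun i => ‖Q.C1 ω i‖) ∧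
      ‖Q.C1 ω ⟨Q.M, by omega⟩‖ = Real.exp (-(5/4)) := by
  have hJ := Q.hJ
  have hM := Q.hM
  have hsM := s_M_kb Q.M
  have hval : ‖Q.C1 ω ⟨Q.M, by omega⟩‖ = Real.exp (-(5/4)) := by
    rw [norm_C1 Q ω h]
    simp only
    rw [Q.pone (Q.M + 1) (by omega) (by omega), mul_div_assoc, hsM, one_mul, mul_one]
  have hexp2 : ∀ k, Q.M < k → Q.p (k + 1) * Real.exp (-(5/4 * (2:ℝ) ^ k / 2 ^ Q.M)) ≤
      136 / 1000 := by
    intro k hk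
    have h1 := s_ge_kb Q.M k 1 (by omega)
    have h2 : Real.exp (-(5/4 * (2:ℝ) ^ k / 2 ^ Q.M)) ≤ Real.exp (-2) := by
      refine Real.exp_le_exp.2 ?_
      rw [mul_div_assoc]; linarith
    have h3 := e2_kb
    have h4 := Q.ple (k + 1)
    have h5 := Q.pnn (k + 1)
    have h6 := Real.exp_pos (-(5/4 * (2:ℝ) ^ k / 2 ^ Q.M))
    nlinarith
  refine ⟨⟨?_, ?_, ?_⟩, ⟨?_, ?_, ?_⟩, hval⟩
  · show _ ≤ ‖Q.C1 ω ⟨Q.M, by omega⟩‖
    rw [hval]; linarith [e54_kb.1]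
  · show ‖Q.C1 ω ⟨Q.M, by omega⟩‖ ≤ _
    rw [hval]; linarith [e54_kb.2]
  · show ‖Q.C1 ω ⟨Q.M + 1, by omega⟩‖ ≤ _
    rw [norm_C1 Q ω h]
    exact hexp2 (Q.M + 1) (by omega)
  · intro k hk hJk
    show _ < ‖Q.C1 ω ⟨k, by omega⟩‖
    rw [norm_C1 Q ω h]
    simp only
    rw [Q.pone (k + 1) (by omega) (by omega), one_mul, mul_div_assoc]
    have h1 := s_le_kb Q.M k 1 (by omega)
    refine lt_of_lt_of_le e58_kb (Real.exp_le_exp.2 ?_)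
    linarith
  · intro k hk hkJ
    show 99 / 100 * ‖Q.C1 ω ⟨k, by omega⟩‖ ≤ ‖Q.C1 ω ⟨k + 1, by omega⟩‖
    rw [norm_C1 Q ω h, norm_C1 Q ω h]
    simp only
    have h1 := s_le_kb Q.M k 12 (by omega)
    have h2 := Q.pmono (k + 1) (by omega) (by omega)
    have h3 : 5/4 * (2:ℝ) ^ (k+1) / 2 ^ Q.M =
        5/4 * (2:ℝ) ^ k / 2 ^ Q.M + 5/4 * (2:ℝ) ^ k / 2 ^ Q.M := by
      rw [pow_succ]; ring
    rw [h3, neg_add, Real.exp_add]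
    have h4 := Real.add_one_le_exp (-(5/4 * (2:ℝ) ^ k / 2 ^ Q.M))
    have h5 := Real.exp_pos (-(5/4 * (2:ℝ) ^ k / 2 ^ Q.M))
    have h6 : 99 / 100 ≤ Real.exp (-(5/4 * (2:ℝ) ^ k / 2 ^ Q.M)) := by
      norm_num at h1
      rw [mul_div_assoc] at h4 ⊢
      linarith
    have h7 := Q.pnn (k + 1)
    generalize Real.exp (-(5/4 * (2:ℝ) ^ k / 2 ^ Q.M)) = e at *
    calc 99 / 100 * (Q.p (k + 1) * e) = Q.p (k + 1) * (99 / 100 * e) := by ring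
      _ ≤ Q.p (k + 1) * (e * e) := by
        refine mul_le_mul_of_nonneg_left ?_ h7
        exact mul_le_mul_of_nonneg_right h6 h5.le
      _ ≤ Q.p (k + 1 + 1) * (e * e) := mul_le_mul_of_nonneg_right h2 (by positivity)
  · intro k hk hMk
    show ‖Q.C1 ω ⟨k, hk⟩‖ ≤ _
    rw [norm_C1 Q ω h]
    exact hexp2 _ hMk

theorem Az_kb (Q : Par) :
    IsA_kb Q.M (fun i => ‖Q.FA (Q.rad (9 / 8) : ℂ) i‖) ∧
      ‖Q.FA (Q.rad (9 / 8) : ℂ) ⟨Q.M, by omega⟩‖ = Real.exp (-(9/8)) := by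
  have hJ := Q.hJ
  have hM := Q.hM
  have hsM := s_M_kb Q.M
  have hval : ‖Q.FA (Q.rad (9 / 8) : ℂ) ⟨Q.M, by omega⟩‖ = Real.exp (-(9/8)) := by
    rw [norm_Z Q]
    simp only
    rw [Q.pone Q.M (by omega) (by omega), mul_div_assoc, hsM, one_mul, mul_one]
  refine ⟨⟨?_, ?_, ?_⟩, hval⟩
  · show _ ≤ ‖Q.FA (Q.rad (9 / 8) : ℂ) ⟨Q.M, by omega⟩‖
    rw [hval]; linarith [e98_kb.1]
  · show ‖Q.FA (Q.rad (9 / 8) : ℂ) ⟨Q.M, by omega⟩‖ ≤ _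
    rw [hval]; linarith [e98_kb.2]
  · show ‖Q.FA (Q.rad (9 / 8) : ℂ) ⟨Q.M + 1, by omega⟩‖ ≤ _
    rw [norm_Z Q]
    simp only
    have h1 := s_ge_kb Q.M (Q.M + 1) 1 (by omega)
    have h2 : Real.exp (-(9/8 * (2:ℝ) ^ (Q.M + 1) / 2 ^ Q.M)) ≤ Real.exp (-2) := by
      refine Real.exp_le_exp.2 ?_
      rw [mul_div_assoc]; linarith
    have h3 := e2_kb
    have h4 := Q.ple (Q.M + 1)
    have h5 := Q.pnn (Q.M + 1)
    have h6 := Real.exp_pos (-(9/8 * (2:ℝ) ^ (Q.M + 1) / 2 ^ Q.M))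
    nlinarith

theorem cross_nrm_kb (Q : Par) (x x' : Fin (Q.M + 5) → ℂ) (ha : IsA_kb Q.M (fun i => ‖x i‖))
    (hb : IsB_kb Q.M Q.J (fun i => ‖x' i‖)) (j : Fin (Q.M + 5)) (hj : j ≠ 0) :
    1 / 100 ≤ nrm (x - rot j x') := by
  obtain ⟨i, hi⟩ := cross Q.M Q.J Q.hM (fun i => ‖x i‖) (fun i => ‖x' i‖) ha.1 ha.2.1 ha.2.2
    hb.1 hb.2.1 hb.2.2 j hj
  have h1 : |‖x i‖ - ‖x' (i - j)‖| ≤ ‖x i - x' (i - j)‖ := abs_norm_sub_norm_le _ _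
  have h2 := norm_le_nrm (x - rot j x') i
  have h3 : (x - rot j x') i = x i - x' (i - j) := rfl
  rw [h3] at h2
  exact hi.trans (h1.trans h2)

theorem slotM_kb (Q : Par) (x x' : Fin (Q.M + 5) → ℂ) (ε : ℝ)
    (h : ε < |‖x ⟨Q.M, by omega⟩‖ - ‖x' ⟨Q.M, by omega⟩‖|) : ε < nrm (x - x') := by
  have h1 : |‖x ⟨Q.M, by omega⟩‖ - ‖x' ⟨Q.M, by omega⟩‖| ≤
      ‖x ⟨Q.M, by omega⟩ - x' ⟨Q.M, by omega⟩‖ := abs_norm_sub_norm_le _ _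
  have h2 := norm_le_nrm (x - x') ⟨Q.M, by omega⟩
  have h3 : (x - x') ⟨Q.M, by omega⟩ = x ⟨Q.M, by omega⟩ - x' ⟨Q.M, by omega⟩ := rfl
  rw [h3] at h2
  linarith

theorem norm_om_kb (Q : Par) {ω : ℂ} (h : ω ^ Q.N = 1) : ‖ω‖ = 1 :=
  Complex.norm_eq_one_of_pow_eq_one h (by unfold Par.N; positivity)

theorem rot_zero_kb {n : ℕ} [NeZero n] (x : Fin n → ℂ) : rot 0 x = x := by
  funext i; unfold rot; rw [sub_zero]

/-- the point set of centres without rotation -/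
theorem base_kb (Q : Par) {x : Fin (Q.M + 5) → ℂ}
    (hx : ∃ ω : ℂ, ω ^ Q.N = 1 ∧ (x = Q.C0 ω ∨ x = Q.C1 ω)) :
    IsA_kb Q.M (fun i => ‖x i‖) ∧ IsB_kb Q.M Q.J (fun i => ‖x i‖) := by
  obtain ⟨ω, hω, rfl | rfl⟩ := hx
  · exact ⟨(A0_kb Q ω (norm_om_kb Q hω)).1, (A0_kb Q ω (norm_om_kb Q hω)).2.1⟩
  · exact ⟨(A1_kb Q ω (norm_om_kb Q hω)).1, (A1_kb Q ω (norm_om_kb Q hω)).2.1⟩

/- TARGET -/
theorem sep (Q : Par) : ∀ c ∈ Q.Cen, ∀ c' ∈ Q.Cen, c ≠ c' → 31 / 12800 < nrm (c - c') := by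
  intro c hc c' hc' hne
  have hrep : ∀ c ∈ Q.Cen, ∃ (j : Fin (Q.M + 5)) (x : Fin (Q.M + 5) → ℂ), c = rot j x ∧
      ∃ ω : ℂ, ω ^ Q.N = 1 ∧ (x = Q.C0 ω ∨ x = Q.C1 ω) := by
    rintro c ⟨j, ω, hω, rfl | rfl⟩
    · exact ⟨j, _, rfl, ω, hω, Or.inl rfl⟩
    · exact ⟨j, _, rfl, ω, hω, Or.inr rfl⟩
  obtain ⟨j, x, rfl, hx⟩ := hrep c hc
  obtain ⟨j', x', rfl, hx'⟩ := hrep c' hc'
  have hb := base_kb Q hx
  have hb' := base_kb Q hx'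
  have heq : rot j x - rot j' x' = rot j (x - rot (j' - j) x') := by
    have h1 : rot j (rot (j' - j) x') = rot j' x' := by
      rw [rot_rot]; congr 1; abel
    rw [← h1]; rfl
  by_cases hj : j' - j = 0
  · have hjj : j = j' := (sub_eq_zero.1 hj).symm
    subst hjj
    have hxx : x ≠ x' := by
      intro h; exact hne (by rw [h])
    rw [heq, nrm_rot, hj, rot_zero_kb]
    obtain ⟨ω, hω, h1 | h1⟩ := hx
    · obtain ⟨ω', hω', h2 | h2⟩ := hx'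
      · rw [h1, h2] at hxx ⊢
        exact sep0 Q ω ω' hω hω' hxx
      · rw [h1, h2]
        refine slotM_kb Q _ _ _ ?_
        rw [(A0_kb Q ω (norm_om_kb Q hω)).2.2, (A1_kb Q ω' (norm_om_kb Q hω')).2.2]
        refine lt_of_lt_of_le ?_ (le_abs_self _)
        linarith [e1_kb.1, e54_kb.2]
    · obtain ⟨ω', hω', h2 | h2⟩ := hx'
      · rw [h1, h2]
        refine slotM_kb Q _ _ _ ?_
        rw [(A1_kb Q ω (norm_om_kb Q hω)).2.2, (A0_kb Q ω' (norm_om_kb Q hω')).2.2, abs_sub_comm]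
        refine lt_of_lt_of_le ?_ (le_abs_self _)
        linarith [e1_kb.1, e54_kb.2]
      · rw [h1, h2] at hxx ⊢
        exact sep1 Q ω ω' hω hω' hxx
  · rw [heq, nrm_rot]
    have := cross_nrm_kb Q x x' hb.1 hb'.2 (j' - j) hj
    linarith

/- TARGET -/
theorem zout (Q : Par) : ∀ c ∈ Q.Cen, 31 / 25600 < nrm (Q.FA (Q.rad (9 / 8) : ℂ) - c) := by
  intro c hc
  have hrep : ∀ c ∈ Q.Cen, ∃ (j : Fin (Q.M + 5)) (x : Fin (Q.M + 5) → ℂ), c = rot j x ∧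
      ∃ ω : ℂ, ω ^ Q.N = 1 ∧ (x = Q.C0 ω ∨ x = Q.C1 ω) := by
    rintro c ⟨j, ω, hω, rfl | rfl⟩
    · exact ⟨j, _, rfl, ω, hω, Or.inl rfl⟩
    · exact ⟨j, _, rfl, ω, hω, Or.inr rfl⟩
  obtain ⟨j, x, rfl, hx⟩ := hrep c hc
  have hb := base_kb Q hx
  by_cases hj : j = 0
  · rw [hj, rot_zero_kb]
    obtain ⟨ω, hω, h1 | h1⟩ := hx
    · rw [h1]
      refine slotM_kb Q _ _ _ ?_
      rw [(A0_kb Q ω (norm_om_kb Q hω)).2.2, (Az_kb Q).2, abs_sub_comm]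
      refine lt_of_lt_of_le ?_ (le_abs_self _)
      linarith [e1_kb.1, e98_kb.2]
    · rw [h1]
      refine slotM_kb Q _ _ _ ?_
      rw [(A1_kb Q ω (norm_om_kb Q hω)).2.2, (Az_kb Q).2]
      refine lt_of_lt_of_le ?_ (le_abs_self _)
      linarith [e54_kb.2, e98_kb.1]
  · have := cross_nrm_kb Q _ x (Az_kb Q).1 hb.2 j hj
    linarith

end Pool.Agent.Helper112.KB.Kse

namespace Pool.Agent.Helper112.KB

theorem sep (Q : Par) : ∀ c ∈ Q.Cen, ∀ c' ∈ Q.Cen, c ≠ c' → 31 / 12800 < nrm (c - c') := by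
  first
    | exact Kse.sep
    | (apply Kse.sep <;> assumption)

theorem zout (Q : Par) : ∀ c ∈ Q.Cen, 31 / 25600 < nrm (Q.FA (Q.rad (9 / 8) : ℂ) - c) := by
  first
    | exact Kse.zout
    | (apply Kse.zout <;> assumption)

end Pool.Agent.Helper112.KB
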