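import Pool.Agent.Helper112.Kb.Defs
import Pool.Agent.Helper112.Kb.Kfi
import Pool.Agent.Helper112.Kb.Khu
import Pool.Agent.Helper112.Kb.Knr
import Pool.Agent.Helper112.Kb.Kse

open Finset

namespace Pool.Agent.Helper112.KB.Kfn

/- TARGET -/
theorem final :
    ¬ (∀ (n k : ℕ) (c : Fin k → (Fin n → ℂ)) (r : Fin k → ℝ),
      (∀ i, 0 < r i) →
      (∀ i j, i ≠ j →
        Disjoint {ζ : Fin n → ℂ | ∑ m, ‖ζ m - c i m‖ ^ 2 ≤ r i ^ 2}
                 {ζ : Fin n → ℂ | ∑ m, ‖ζ m - c j m‖ ^ 2 ≤ r j ^ 2}) →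
      ∀ z : Fin n → ℂ,
        (∀ i, r i ^ 2 < ∑ m, ‖z m - c i m‖ ^ 2) →
        ∃ P : MvPolynomial (Fin n) ℂ,
          ∀ i, ∀ ζ : Fin n → ℂ, ∑ m, ‖ζ m - c i m‖ ^ 2 ≤ r i ^ 2 →
            ‖MvPolynomial.eval ζ P‖ < ‖MvPolynomial.eval z P‖) := by
  intro hall
  obtain ⟨Q⟩ := par_exists
  have hr0 : (0:ℝ) ≤ 31/25600 := by norm_num
  let S : Finset (Fin (Q.M + 5) → ℂ) := (fin_cen Q).toFinset
  let e := S.equivFin
  let c : Fin S.card → (Fin (Q.M + 5) → ℂ) := fun i => (e.symm i : Fin (Q.M + 5) → ℂ)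
  have hcmem : ∀ i, c i ∈ Q.Cen := fun i => (Set.Finite.mem_toFinset _).mp (e.symm i).2
  have hcinj : ∀ i j, i ≠ j → c i ≠ c j := by
    intro i j hij h
    exact hij (e.symm.injective (Subtype.ext h))
  have hcsurj : ∀ x ∈ Q.Cen, ∃ i, c i = x := by
    intro x hx
    refine ⟨e ⟨x, (Set.Finite.mem_toFinset _).mpr hx⟩, ?_⟩
    simp [c]
  have hz0 : nrm (0 : Fin (Q.M + 5) → ℂ) ≤ 0 := by
    rw [nrm_le_iff _ _ le_rfl]
    simp
  have hball : ∀ (x : Fin (Q.M + 5) → ℂ) i, (∑ m, ‖x m - c i m‖ ^ 2 ≤ (31/25600 : ℝ)^2 ↔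
      nrm (x - c i) ≤ 31/25600) := by
    intro x i
    rw [nrm_le_iff _ _ hr0]
    rfl
  obtain ⟨P, hP⟩ := hall (Q.M + 5) S.card c (fun _ => 31/25600) (fun _ => by norm_num)
    (by
      intro i j hij
      rw [Set.disjoint_left]
      intro x hx hx'
      have h1 := (hball x i).mp hx
      have h2 := (hball x j).mp hx'
      have h3 := sep Q (c i) (hcmem i) (c j) (hcmem j) (hcinj i j hij)
      have h4 : c i - c j = (x - c j) - (x - c i) := by abel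
      rw [h4] at h3
      have h5 := nrm_sub (x - c j) (x - c i)
      linarith)
    (Q.FA (Q.rad (9/8) : ℂ))
    (by
      intro i
      have h1 := zout Q (c i) (hcmem i)
      by_contra h2
      have h3 := (hball _ i).mp (not_lt.mp h2)
      linarith)
  -- the union of the balls is compact
  let B : Fin S.card → Set (Fin (Q.M + 5) → ℂ) := fun i => {x | ∑ m, ‖x m - c i m‖ ^ 2 ≤ (31/25600 : ℝ)^2}
  have hBc : ∀ i, IsCompact (B i) := by
    intro i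
    refine (isCompact_closedBall (c i) (31/25600 : ℝ)).of_isClosed_subset ?_ ?_
    · exact isClosed_le (by fun_prop) continuous_const
    · intro x hx
      have h1 := (hball x i).mp hx
      rw [Metric.mem_closedBall, dist_pi_le_iff hr0]
      intro m
      rw [dist_eq_norm]
      exact (norm_le_nrm (x - c i) m).trans h1
  have hX : IsCompact (⋃ i, B i) := isCompact_iUnion hBc
  have hXmem : ∀ x, Q.InX x → x ∈ ⋃ i, B i := by
    rintro x ⟨c', hc', hx⟩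
    obtain ⟨i, rfl⟩ := hcsurj c' hc'
    exact Set.mem_iUnion.mpr ⟨i, (hball x i).mpr hx⟩
  have hne : (⋃ i, B i).Nonempty := by
    refine ⟨rot 0 (Q.C0 1), hXmem _ ⟨rot 0 (Q.C0 1), ⟨0, 1, one_pow _, Or.inl rfl⟩, ?_⟩⟩
    rw [sub_self]
    exact hz0.trans hr0
  obtain ⟨x0, hx0, hmax⟩ := hX.exists_isMaxOn hne
    (f := fun x => ‖MvPolynomial.eval x P‖) ((MvPolynomial.continuous_eval P).norm.continuousOn)
  obtain ⟨i0, hi0⟩ := Set.mem_iUnion.mp hx0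
  have h1 := hP i0 x0 hi0
  have hT : Q.InT (Q.FA (Q.rad (9/8) : ℂ)) := by
    refine ⟨0, (Q.rad (9/8) : ℂ), 0, hz0.trans (by positivity), Or.inl ⟨?_, ?_⟩⟩
    · rw [Complex.norm_real, Real.norm_of_nonneg]
      exact (Real.exp_pos _).le
    · funext i
      simp [rot]
  have h2 := hull Q P ‖MvPolynomial.eval x0 P‖ (norm_nonneg _) (fun x hx => hmax (hXmem x hx)) _ hT
  linarith

end Pool.Agent.Helper112.KB.Kfn

namespace Pool.Agent.Helper112.KB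

theorem final :
    ¬ (∀ (n k : ℕ) (c : Fin k → (Fin n → ℂ)) (r : Fin k → ℝ),
      (∀ i, 0 < r i) →
      (∀ i j, i ≠ j →
        Disjoint {ζ : Fin n → ℂ | ∑ m, ‖ζ m - c i m‖ ^ 2 ≤ r i ^ 2}
                 {ζ : Fin n → ℂ | ∑ m, ‖ζ m - c j m‖ ^ 2 ≤ r j ^ 2}) →
      ∀ z : Fin n → ℂ,
        (∀ i, r i ^ 2 < ∑ m, ‖z m - c i m‖ ^ 2) →
        ∃ P : MvPolynomial (Fin n) ℂ,
          ∀ i, ∀ ζ : Fin n → ℂ, ∑ m, ‖ζ m - c i m‖ ^ 2 ≤ r i ^ 2 →
            ‖MvPolynomial.eval ζ P‖ < ‖MvPolynomial.eval z P‖) := by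
  first
    | exact Kfn.final
    | (apply Kfn.final <;> assumption)

end Pool.Agent.Helper112.KB
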